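import Pool.Agent.H38.VG.Anti

/-!
# Hermitian lattices inside complex vector spaces
-/

set_option linter.unusedSectionVars false

namespace H91.VG

open Module nonZeroDivisors

section

variable {R K : Type} [CommRing R] [IsDedekindDomain R] [Field K] [Algebra R K]
  [IsFractionRing R K] (ι : K →+* ℂ)

/-- A complex vector space as a `K`-vector space. -/
def Amb (_ : K →+* ℂ) (W : Type) : Type := W

instance (W : Type) [AddCommGroup W] : AddCommGroup (Amb ι W) := inferInstanceAs (AddCommGroup W)

noncomputable instance (W : Type) [AddCommGroup W] [Module ℂ W] : Module ℂ (Amb ι W) :=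
  inferInstanceAs (Module ℂ W)

noncomputable instance (W : Type) [AddCommGroup W] [Module ℂ W] : Module K (Amb ι W) :=
  Module.compHom W ι

noncomputable instance (W : Type) [AddCommGroup W] [Module ℂ W] : Module R (Amb ι W) :=
  Module.compHom W (ι.comp (algebraMap R K))

theorem amb_smul (W : Type) [AddCommGroup W] [Module ℂ W] (a : K) (x : Amb ι W) :
    a • x = ι a • x := rfl

theorem amb_smulR (W : Type) [AddCommGroup W] [Module ℂ W] (a : R) (x : Amb ι W) :
    a • x = ι (algebraMap R K a) • x := rfl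

instance (W : Type) [AddCommGroup W] [Module ℂ W] : IsScalarTower R K (Amb ι W) := by
  constructor
  intro a b x
  rw [Algebra.smul_def, amb_smul, amb_smul, amb_smulR, map_mul, mul_smul]

variable (R) in
/-- Data for a hermitian lattice in a complex vector space. -/
structure AmbData where
  W : Type
  [acg : AddCommGroup W]
  [mod : Module ℂ W]
  L : AddSubgroup W
  fg : ∃ S : Finset W, (∀ s ∈ S, s ∈ L) ∧
    ∀ x ∈ L, x ∈ AddSubgroup.closure {y | ∃ (r : R), ∃ s ∈ S, y = ι (algebraMap R K r) • s}
  smul_mem : ∀ (e : R) (x : W), x ∈ L → ι (algebraMap R K e) • x ∈ L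
  H : W → W → ℂ
  add_left : ∀ x y z, H (x + y) z = H x z + H y z
  add_right : ∀ x y z, H x (y + z) = H x y + H x z
  smul_left : ∀ (a : ℂ) x y, H (a • x) y = a * H x y
  smul_right : ∀ (a : ℂ) x y, H x (a • y) = starRingEnd ℂ a * H x y
  range : ∀ x ∈ L, ∀ y ∈ L, ∃ a : K, H x y = ι a
  nondeg : ∀ x ∈ Submodule.span ℂ (L : Set W), x ≠ 0 → ∃ y ∈ L, H x y ≠ 0

attribute [instance] AmbData.acg AmbData.mod

end

namespace AmbData

variable {R K : Type} [CommRing R] [IsDedekindDomain R] [Field K] [Algebra R K]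
  [IsFractionRing R K] {ι : K →+* ℂ} (A : AmbData R ι)

/-- The lattice, in `Amb`. -/
def LA : AddSubgroup (Amb ι A.W) := A.L

/-- The form, on `Amb`. -/
def HA (x y : Amb ι A.W) : ℂ := A.H x y

theorem ha_add_left (x y z : Amb ι A.W) : A.HA (x + y) z = A.HA x z + A.HA y z :=
  A.add_left x y z

theorem ha_add_right (x y z : Amb ι A.W) : A.HA x (y + z) = A.HA x y + A.HA x z :=
  A.add_right x y z

theorem ha_csmul_left (a : ℂ) (x y : Amb ι A.W) : A.HA (a • x) y = a * A.HA x y :=
  A.smul_left a x y

theorem ha_csmul_right (a : ℂ) (x y : Amb ι A.W) :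
    A.HA x (a • y) = starRingEnd ℂ a * A.HA x y := A.smul_right a x y

theorem ha_smul_left (a : K) (x y : Amb ι A.W) : A.HA (a • x) y = ι a * A.HA x y :=
  A.smul_left (ι a) x y

theorem ha_smul_right (a : K) (x y : Amb ι A.W) :
    A.HA x (a • y) = starRingEnd ℂ (ι a) * A.HA x y := A.smul_right (ι a) x y

theorem ha_zero_left (y : Amb ι A.W) : A.HA 0 y = 0 := by
  have := A.ha_csmul_left 0 0 y
  rwa [zero_smul, zero_mul] at this

theorem ha_zero_right (y : Amb ι A.W) : A.HA y 0 = 0 := by
  have := A.ha_csmul_right 0 y 0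
  rwa [zero_smul, map_zero, zero_mul] at this

/-- The `K`-span of the lattice. -/
noncomputable def Esub : Submodule K (Amb ι A.W) := Submodule.span K (A.LA : Set (Amb ι A.W))

theorem mem_Esub_of_mem {x : Amb ι A.W} (h : x ∈ A.LA) : x ∈ A.Esub := Submodule.subset_span h

/-- The lattice in its `K`-span. -/
noncomputable def Msub : Submodule R A.Esub where
  carrier := {x | x.1 ∈ A.LA}
  add_mem' := by
    intro a b ha hb
    exact A.LA.add_mem ha hb
  zero_mem' := A.LA.zero_mem
  smul_mem' := by
    intro c x hx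
    exact A.smul_mem c _ hx

theorem mem_Msub {x : A.Esub} : x ∈ A.Msub ↔ x.1 ∈ A.LA := Iff.rfl

theorem Msub_fg : A.Msub.FG := by
  obtain ⟨S, hSL, hS⟩ := A.fg
  let T : Set A.Esub := {x | (x.1 : A.W) ∈ S}
  have hT : T.Finite := by
    refine Set.Finite.of_finite_image (f := fun x : A.Esub => (x.1 : A.W)) ?_ ?_
    · refine (Finset.finite_toSet S).subset ?_
      rintro _ ⟨x, hx, rfl⟩
      exact hx
    · intro x _ y _ h
      exact Subtype.ext h
  refine ⟨hT.toFinset, ?_⟩
  rw [Set.Finite.coe_toFinset]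
  apply le_antisymm
  · rw [Submodule.span_le]
    intro x hx
    exact hSL _ hx
  · intro x hx
    have key : ∀ y : A.W, y ∈ AddSubgroup.closure
        {y | ∃ (r : R), ∃ s ∈ S, y = ι (algebraMap R K r) • s} →
        ∃ h : (y : Amb ι A.W) ∈ A.Esub, (⟨y, h⟩ : A.Esub) ∈ Submodule.span R T := by
      intro y hy
      induction hy using AddSubgroup.closure_induction with
      | mem y hy =>
        obtain ⟨r, s, hs, rfl⟩ := hy
        have h1 : (s : Amb ι A.W) ∈ A.Esub := A.mem_Esub_of_mem (hSL s hs)
        have h2 : (⟨s, h1⟩ : A.Esub) ∈ Submodule.span R T := Submodule.subset_span hs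
        have h3 := Submodule.smul_mem _ r h2
        exact ⟨(r • (⟨s, h1⟩ : A.Esub)).2, h3⟩
      | zero => exact ⟨A.Esub.zero_mem, Submodule.zero_mem _⟩
      | add y z _ _ ihy ihz =>
        obtain ⟨h1, h3⟩ := ihy
        obtain ⟨h2, h4⟩ := ihz
        exact ⟨A.Esub.add_mem h1 h2, Submodule.add_mem _ h3 h4⟩
      | neg y _ ihy =>
        obtain ⟨h1, h3⟩ := ihy
        exact ⟨A.Esub.neg_mem h1, Submodule.neg_mem _ h3⟩
    exact (key x.1 (hS x.1 hx)).2

theorem Msub_span : Submodule.span K (A.Msub : Set A.Esub) = ⊤ :=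
  Submodule.span_span_coe_preimage (R := K) (s := (A.LA : Set (Amb ι A.W)))

theorem fin_dim : FiniteDimensional K A.Esub := by
  obtain ⟨S, hS⟩ := A.Msub_fg
  refine ⟨⟨S, ?_⟩⟩
  rw [← A.Msub_span, ← hS]
  apply le_antisymm
  · rw [Submodule.span_le]
    intro x hx
    exact Submodule.subset_span (Submodule.subset_span hx)
  · rw [Submodule.span_le]
    intro x hx
    have h1 : Submodule.span R (S : Set A.Esub)
        ≤ (Submodule.span K (S : Set A.Esub)).restrictScalars R := by
      rw [Submodule.span_le]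
      intro y hy
      exact Submodule.subset_span hy
    exact h1 hx

theorem ha_range' {x : Amb ι A.W} (hx : x ∈ A.Esub) {y : Amb ι A.W} (hy : y ∈ A.LA) :
    ∃ a : K, A.HA x y = ι a := by
  have hx' : x ∈ Submodule.span K (A.LA : Set (Amb ι A.W)) := hx
  clear hx
  induction hx' using Submodule.span_induction with
  | mem x hx => exact A.range x hx y hy
  | zero => exact ⟨0, by rw [map_zero]; exact A.ha_zero_left y⟩
  | add x z h1 h2 ihx ihz =>
    obtain ⟨a, ha⟩ := ihx
    obtain ⟨c, hc⟩ := ihz
    exact ⟨a + c, by rw [map_add, ← ha, ← hc]; exact A.ha_add_left x z y⟩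
  | smul c x h1 ihx =>
    obtain ⟨a, ha⟩ := ihx
    exact ⟨c * a, by rw [map_mul, ← ha]; exact A.ha_smul_left _ x y⟩

theorem exists_int {n : ℕ} (b : Fin n → A.Esub) :
    ∃ r : R, r ≠ 0 ∧ ∀ j, ((algebraMap R K r) • ((b j : A.Esub) : Amb ι A.W)) ∈ A.LA := by
  have h1 : ∀ x : Amb ι A.W, x ∈ A.Esub → ∃ r : R, r ≠ 0 ∧ (algebraMap R K r) • x ∈ A.LA := by
    intro x hx
    have hx' : x ∈ Submodule.span K (A.LA : Set (Amb ι A.W)) := hx
    clear hx
    induction hx' using Submodule.span_induction with
    | mem x hx => exact ⟨1, one_ne_zero, by rw [map_one, one_smul]; exact hx⟩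
    | zero => exact ⟨1, one_ne_zero, by rw [smul_zero]; exact A.LA.zero_mem⟩
    | add x z h1 h2 ihx ihz =>
      obtain ⟨r, hr, h3⟩ := ihx
      obtain ⟨s, hs, h4⟩ := ihz
      refine ⟨r * s, mul_ne_zero hr hs, ?_⟩
      rw [smul_add]
      refine A.LA.add_mem ?_ ?_
      · rw [map_mul, mul_comm, mul_smul]
        exact A.smul_mem s _ h3
      · rw [map_mul, mul_smul]
        exact A.smul_mem r _ h4
    | smul c x h1 ihx =>
      obtain ⟨r, hr, h3⟩ := ihx
      obtain ⟨p, q, hq, rfl⟩ := IsFractionRing.div_surjective (A := R) c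
      have hq0 : q ≠ 0 := nonZeroDivisors.ne_zero hq
      refine ⟨r * q, mul_ne_zero hr hq0, ?_⟩
      have hq1 : algebraMap R K q ≠ 0 := by
        rw [Ne, IsFractionRing.to_map_eq_zero_iff]
        exact hq0
      have h5 : (algebraMap R K (r * q)) • ((algebraMap R K p / algebraMap R K q) • x)
          = (algebraMap R K p) • ((algebraMap R K r) • x) := by
        rw [smul_smul, smul_smul, map_mul]
        congr 1
        field_simp
      rw [h5]
      exact A.smul_mem p _ h3
  choose r hr hr2 using fun j => h1 _ (b j).2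
  refine ⟨∏ j, r j, Finset.prod_ne_zero_iff.mpr fun j _ => hr j, fun j => ?_⟩
  rw [← Finset.mul_prod_erase Finset.univ r (Finset.mem_univ j), map_mul, mul_comm, mul_smul]
  exact A.smul_mem _ _ (hr2 j)

theorem gram_ne {n : ℕ} (b : Basis (Fin n) K A.Esub) :
    (Matrix.of fun i j => A.HA (b i).1 (b j).1).det ≠ 0 := by
  obtain ⟨r, hr, hrb⟩ := A.exists_int b
  -- the entries lie in `K`
  have hent : ∀ i j, ∃ a : K, A.HA (b i).1 ((algebraMap R K r) • (b j).1) = ι a :=
    fun i j => A.ha_range' (b i).2 (hrb j)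
  choose g hg using hent
  have hι : ι (algebraMap R K r) ≠ 0 := by
    rw [Ne, map_eq_zero, IsFractionRing.to_map_eq_zero_iff]
    exact hr
  intro hdet
  have hdet2 : (Matrix.of fun i j => A.HA (b i).1 ((algebraMap R K r) • (b j).1)).det = 0 := by
    have h1 : (Matrix.of fun i j => A.HA (b i).1 ((algebraMap R K r) • (b j).1))
        = (starRingEnd ℂ (ι (algebraMap R K r))) • (Matrix.of fun i j => A.HA (b i).1 (b j).1) := by
      ext i j
      rw [Matrix.of_apply, Matrix.smul_apply, Matrix.of_apply, A.ha_smul_right, smul_eq_mul]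
    rw [h1, Matrix.det_smul, hdet, mul_zero]
  have hdet3 : (Matrix.of g).det = 0 := by
    apply ι.injective
    rw [map_zero, RingHom.map_det, ← hdet2]
    congr 1
    ext i j
    exact (hg i j).symm
  obtain ⟨v, hv, hv0⟩ := Matrix.exists_vecMul_eq_zero_iff.mpr hdet3
  set z : A.Esub := ∑ j, v j • b j with hz
  have hzne : z ≠ 0 := by
    intro h
    apply hv
    have := b.linearIndependent
    rw [Fintype.linearIndependent_iff] at this
    exact funext (this v h)
  have hsuml : ∀ (y : Amb ι A.W) (s : Finset (Fin n)),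
      A.HA ((∑ j ∈ s, v j • b j : A.Esub) : Amb ι A.W) y
        = ∑ j ∈ s, ι (v j) * A.HA ((b j : A.Esub) : Amb ι A.W) y := by
    intro y s
    classical
    induction s using Finset.induction_on with
    | empty =>
      rw [Finset.sum_empty, Finset.sum_empty]
      exact A.ha_zero_left y
    | insert a s ha ih =>
      rw [Finset.sum_insert ha, Finset.sum_insert ha, ← ih, Submodule.coe_add, A.ha_add_left,
        Submodule.coe_smul, A.ha_smul_left]
  have horth : ∀ j, A.HA z.1 (b j).1 = 0 := by
    intro j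
    have h2 : A.HA z.1 ((algebraMap R K r) • (b j).1) = 0 := by
      rw [hz, hsuml]
      have h3 := congrFun hv0 j
      rw [Matrix.vecMul, dotProduct] at h3
      have h4 := congrArg ι h3
      rw [map_sum, Pi.zero_apply, map_zero] at h4
      rw [← h4]
      refine Finset.sum_congr rfl fun i _ => ?_
      rw [map_mul, Matrix.of_apply, hg]
    rw [A.ha_smul_right] at h2
    exact (mul_eq_zero.mp h2).resolve_left ((map_ne_zero _).mpr hι)
  have hzspan : (z.1 : A.W) ∈ Submodule.span ℂ (A.L : Set A.W) := by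
    have h3 : ∀ x : Amb ι A.W, x ∈ A.Esub → (x : A.W) ∈ Submodule.span ℂ (A.L : Set A.W) := by
      intro x hx
      have hx' : x ∈ Submodule.span K (A.LA : Set (Amb ι A.W)) := hx
      clear hx
      induction hx' using Submodule.span_induction with
      | mem x hx => exact Submodule.subset_span hx
      | zero => exact Submodule.zero_mem _
      | add x y h1 h2 hx hy => exact Submodule.add_mem _ hx hy
      | smul a x h1 hx => exact Submodule.smul_mem _ (ι a) hx
    exact h3 _ z.2
  obtain ⟨y, hy, hne⟩ := A.nondeg z.1 hzspan (fun h => hzne (Subtype.ext h))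
  apply hne
  have hyE : (y : Amb ι A.W) ∈ A.Esub := A.mem_Esub_of_mem hy
  have hrepr := b.sum_repr ⟨y, hyE⟩
  have hsumr : ∀ (c : Fin n → K) (s : Finset (Fin n)),
      A.HA z.1 ((∑ j ∈ s, c j • b j : A.Esub) : Amb ι A.W) = 0 := by
    intro c s
    classical
    induction s using Finset.induction_on with
    | empty =>
      rw [Finset.sum_empty]
      exact A.ha_zero_right _
    | insert a s ha ih =>
      rw [Finset.sum_insert ha, Submodule.coe_add, A.ha_add_right, ih, Submodule.coe_smul,
        A.ha_smul_right, horth, mul_zero, add_zero]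
  have h6 := hsumr (fun j => b.repr ⟨y, hyE⟩ j) Finset.univ
  rw [hrepr] at h6
  exact h6

/-- The hermitian lattice. -/
noncomputable def toHerm : HermMod R K ι where
  E := A.Esub
  fd := A.fin_dim
  M := A.Msub
  fg := A.Msub_fg
  span := A.Msub_span
  h := fun x y => A.HA x.1 y.1
  add_left := fun x y z => A.ha_add_left _ _ _
  add_right := fun x y z => A.ha_add_right _ _ _
  smul_left := fun a x y => A.ha_smul_left _ _ _
  smul_right := fun a x y => A.ha_smul_right _ _ _
  nondeg := by
    have := A.fin_dim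
    exact ⟨_, finBasis K A.Esub, A.gram_ne _⟩

end AmbData

end H91.VG
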