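import Pool.Agent.H38.VG.Herm

/-!
# The determinant of a power with a block anti-triangular form
-/

set_option linter.unusedSectionVars false

namespace H91.VG

open Module nonZeroDivisors

namespace HermMod

variable {R K : Type} [CommRing R] [IsDedekindDomain R] [Field K] [Algebra R K]
  [IsFractionRing R K] {ι : K →+* ℂ} (H : HermMod R K ι)

/-- The class of a complex number. -/
noncomputable def sg (R K : Type) [CommRing R] [IsDedekindDomain R] [Field K] [Algebra R K]
    [IsFractionRing R K] (ι : K →+* ℂ) : ℂˣ →* DGrp R K ι :=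
  (DGrp.mk R K ι).comp (MonoidHom.inr _ _)

theorem sg_apply (s : ℂˣ) : sg R K ι s = DGrp.mk R K ι ((1 : (Submodule R K)ˣ), s) := rfl

/-- **Block anti-triangular powers.** -/
theorem D_anti (H' : HermMod R K ι) (r : ℕ) (ε : ℂˣ) (f : H'.E ≃ₗ[K] (Fin r → H.E))
    (hM : ∀ x, x ∈ H'.M ↔ ∀ i, f x i ∈ H.M)
    (h0 : ∀ (i k : Fin r) x y, (i : ℕ) + k + 1 < r →
      H'.h (f.symm (Pi.single i x)) (f.symm (Pi.single k y)) = 0)
    (h1 : ∀ (i k : Fin r) x y, (i : ℕ) + k + 1 = r →
      H'.h (f.symm (Pi.single i x)) (f.symm (Pi.single k y)) = ε * H.h x y) :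
    H'.D = H.D ^ r * sg R K ι (((-1) ^ (r * (r - 1) / 2) * ε ^ r) ^ H.rank) := by
  let b := finBasis K H.E
  let B : Basis (Fin r × Fin (finrank K H.E)) K (Fin r → H.E) :=
    (Pi.basis (fun _ : Fin r => b)).reindex (Equiv.sigmaEquivProd _ _)
  have hB : ∀ i a, B (i, a) = Pi.single i (b a) := by
    intro i a
    simp [B]
  rw [H.D_eq b, H'.D_eq (B.map f.symm), sg_apply, ← map_pow, ← map_mul]
  congr 1
  apply Prod.ext
  · apply Units.ext
    show detSub (B.map f.symm) H'.M = detSub b H.M ^ r * 1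
    rw [mul_one, ← detSub_pi b H.M r B hB]
    refine detSub_map B f.symm (Submodule.pi Set.univ fun _ => H.M) H'.M ?_
    intro x
    rw [hM, LinearEquiv.apply_symm_apply, Submodule.mem_pi]
    simp
  · apply Units.ext
    show H'.gram (B.map f.symm) = H.gram b ^ r * ((((-1) ^ (r * (r - 1) / 2) * ε ^ r) ^ H.rank :
      ℂˣ) : ℂ)
    have h2 := antiTri_det r
      (Matrix.of fun p q => H'.h ((B.map f.symm) p) ((B.map f.symm) q))
      ((ε : ℂ) • Matrix.of fun i j => H.h (b i) (b j))
      (by
        intro i k a c hik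
        rw [Matrix.of_apply, Basis.map_apply, Basis.map_apply, hB, hB]
        exact h0 i k _ _ hik)
      (by
        intro i k a c hik
        rw [Matrix.of_apply, Basis.map_apply, Basis.map_apply, hB, hB]
        exact h1 i k _ _ hik)
    have h3 : H'.gram (B.map f.symm) = (Matrix.of fun p q => H'.h ((B.map f.symm) p)
      ((B.map f.symm) q)).det := rfl
    have h4 : H.gram b = (Matrix.of fun i j => H.h (b i) (b j)).det := rfl
    rw [h3, h2, Matrix.det_smul, h4, Fintype.card_fin]
    have h5 : H.rank = finrank K H.E := rfl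
    rw [h5]
    push_cast
    ring

theorem rank_anti (H' : HermMod R K ι) (r : ℕ) (f : H'.E ≃ₗ[K] (Fin r → H.E)) :
    H'.rank = r * H.rank := by
  unfold rank
  rw [LinearEquiv.finrank_eq f, finrank_pi_fintype]
  simp

/-! ## The sign automorphism -/

theorem sg_sq (s : ℂˣ) (hs : s * s = 1) : sg R K ι s * sg R K ι s = 1 := by
  rw [← map_mul, hs, map_one]

end HermMod

end H91.VG
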