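import Mathlib

/-!
# Orientation of positive frames under the reflection in a vector of square two

`q` is a symmetric bilinear form on a real vector space.  `e`, `f : Fin n → V` are two frames:
the orthogonal complement of `e` is negative definite and the span of `f` is positive definite.
The sign of `det (q (e i) (f j))` compares the orientations of the two frames.  The reflection
`x ↦ x - q x v • v` in a vector `v` of square `2` changes this sign.
-/

namespace H91.VG.Ori

open Matrix

variable {V : Type*} [AddCommGroup V] [Module ℝ V]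

/-- The matrix of products of the two frames. -/
def gram (q : V →ₗ[ℝ] V →ₗ[ℝ] ℝ) {n : ℕ} (e f : Fin n → V) : Matrix (Fin n) (Fin n) ℝ :=
  Matrix.of fun i j => q (e i) (f j)

theorem det_rank_one {α : Type*} [CommRing α] {n : ℕ} (G : Matrix (Fin n) (Fin n) α)
    (hG : IsUnit G.det) (a w : Fin n → α) :
    (Matrix.of fun i j => G i j + a i * w j).det = G.det * (1 + w ⬝ᵥ (G⁻¹ *ᵥ a)) := by
  have hmat : (Matrix.of fun i j => G i j + a i * w j)
      = G + replicateCol (Fin 1) a * replicateRow (Fin 1) w := by
    ext i j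
    simp [Matrix.mul_apply]
  rw [hmat, Matrix.det_add_mul _ _ hG]
  congr 1
  rw [Matrix.det_fin_one, Matrix.mul_assoc, ← Matrix.replicateCol_mulVec]
  simp [Matrix.mul_apply, dotProduct]

theorem gram_det_ne (q : V →ₗ[ℝ] V →ₗ[ℝ] ℝ) {n : ℕ} (e f : Fin n → V)
    (hneg : ∀ x, (∀ i, q (e i) x = 0) → x ≠ 0 → q x x < 0)
    (hpos : ∀ c : Fin n → ℝ, c ≠ 0 → 0 < q (∑ j, c j • f j) (∑ j, c j • f j)) :
    (gram q e f).det ≠ 0 := by
  intro h
  obtain ⟨c, hc, hc0⟩ := Matrix.exists_mulVec_eq_zero_iff.mpr h
  have h1 : ∀ i, q (e i) (∑ j, c j • f j) = 0 := by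
    intro i
    have h2 := congrFun hc0 i
    simp only [mulVec, dotProduct, gram, Matrix.of_apply, Pi.zero_apply] at h2
    rw [map_sum]
    simp only [map_smul, smul_eq_mul]
    rw [← h2]
    exact Finset.sum_congr rfl fun j _ => mul_comm _ _
  have h3 := hpos c hc
  have h4 : (∑ j, c j • f j) ≠ 0 := by
    intro h5
    rw [h5] at h3
    simp at h3
  exact absurd (hneg _ h1 h4) (not_lt.mpr h3.le)

/-- **The reflection in a vector of square two changes the orientation of positive frames.** -/
theorem refl_det_neg (q : V →ₗ[ℝ] V →ₗ[ℝ] ℝ) (hs : ∀ x y, q x y = q y x) {n : ℕ}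
    (e f : Fin n → V)
    (hneg : ∀ x, (∀ i, q (e i) x = 0) → x ≠ 0 → q x x < 0)
    (hpos : ∀ c : Fin n → ℝ, c ≠ 0 → 0 < q (∑ j, c j • f j) (∑ j, c j • f j))
    (v : V) (hv : q v v = 2) :
    (gram q (fun i => e i - q (e i) v • v) f).det * (gram q e f).det < 0 := by
  have hG := gram_det_ne q e f hneg hpos
  have hU : IsUnit (gram q e f).det := isUnit_iff_ne_zero.mpr hG
  set G := gram q e f with hGdef
  set u : Fin n → ℝ := fun i => q (e i) v with hu
  set w : Fin n → ℝ := fun j => q v (f j) with hw
  set c : Fin n → ℝ := G⁻¹ *ᵥ u with hc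
  have hGc : G *ᵥ c = u := by
    rw [hc, mulVec_mulVec, Matrix.mul_nonsing_inv _ hU, one_mulVec]
  set p : V := ∑ j, c j • f j with hp
  have hep : ∀ i, q (e i) p = q (e i) v := by
    intro i
    have h2 := congrFun hGc i
    simp only [mulVec, dotProduct, hGdef, gram, Matrix.of_apply, hu] at h2
    rw [hp, map_sum, ← h2]
    simp only [map_smul, smul_eq_mul]
    exact Finset.sum_congr rfl fun j _ => mul_comm _ _
  have hvp : q v p = w ⬝ᵥ c := by
    rw [hp, map_sum]
    simp only [map_smul, smul_eq_mul, dotProduct, hw]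
    exact Finset.sum_congr rfl fun j _ => mul_comm _ _
  have hgt : 1 < q v p := by
    have hcpos : p ≠ 0 := by
      intro h0
      have h1 : ∀ i, q (e i) v = 0 := by
        intro i
        rw [← hep i, h0, map_zero]
      have hv0 : v ≠ 0 := by
        intro h
        rw [h] at hv
        simp at hv
      have h2 := hneg v h1 hv0
      rw [hv] at h2
      norm_num at h2
    have hpp : 0 < q p p := by
      have hc0 : c ≠ 0 := by
        intro h
        apply hcpos
        rw [hp, h]
        simp
      exact hpos c hc0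
    have h1 : ∀ i, q (e i) (v - p) = 0 := by
      intro i
      rw [map_sub, hep i, sub_self]
    have h2 : q (v - p) (v - p) ≤ 0 := by
      by_cases h3 : v - p = 0
      · rw [h3]
        simp
      · exact (hneg _ h1 h3).le
    have h4 : q (v - p) (v - p) = q v v - 2 * q v p + q p p := by
      simp only [map_sub, LinearMap.sub_apply]
      rw [hs p v]
      ring
    rw [h4, hv] at h2
    linarith
  have hmat : gram q (fun i => e i - q (e i) v • v) f
      = Matrix.of fun i j => G i j + (-u) i * w j := by
    ext i j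
    simp only [gram, Matrix.of_apply, map_sub, LinearMap.sub_apply, map_smul,
      LinearMap.smul_apply, smul_eq_mul, hGdef, hu, hw, Pi.neg_apply]
    ring
  have hfac : w ⬝ᵥ (G⁻¹ *ᵥ (-u)) = - q v p := by
    rw [mulVec_neg, dotProduct_neg, ← hc, hvp]
  rw [hmat, det_rank_one G hU (-u) w, hfac]
  have h5 : 0 < G.det * G.det := mul_self_pos.mpr hG
  nlinarith

end H91.VG.Ori
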