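import Pool.Agent.H91.VG.Defs
import Pool.Agent.H38.VG.Ori
import Pool.Agent.H38.VG.Nik

/-!
# A Hodge isometry `T_X ≅ T_Y` gives `Ku(X) ≅ Ku(Y)`

For every pair of smooth Verra fourfolds: Nikulin's theorem extends the isometry
`T(S, α) ≅ T(S', α')` to the Mukai lattices, the reflection in a vector of square two of
`N(S, α)` corrects the orientation, and the theorem of Huybrechts and Stellari applies.
-/

namespace H91.VG.Asm

open scoped TensorProduct
open H91.VG.Nik H91.VG.Ori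

/-! ## Base change -/

section

variable (A : Type) [CommRing A] {V W : Type} [AddCommGroup V] [AddCommGroup W]

theorem bc_isom (q : LinearMap.BilinForm ℤ V) (q' : LinearMap.BilinForm ℤ W) (g : V →ₗ[ℤ] W)
    (c : ℤ) (h : ∀ x y, q' (g x) (g y) = c * q x y) (x y : A ⊗[ℤ] V) :
    q'.baseChange A (g.baseChange A x) (g.baseChange A y) = c • q.baseChange A x y := by
  induction x using TensorProduct.induction_on with
  | zero => simp
  | add x₁ x₂ h₁ h₂ =>
    rw [map_add, map_add, LinearMap.add_apply, h₁, h₂, map_add, LinearMap.add_apply, smul_add]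
  | tmul a v =>
    induction y using TensorProduct.induction_on with
    | zero => simp
    | add y₁ y₂ h₁ h₂ =>
      rw [map_add, map_add, h₁, h₂, map_add, smul_add]
    | tmul b w =>
      rw [LinearMap.baseChange_tmul, LinearMap.baseChange_tmul,
        LinearMap.BilinForm.baseChange_tmul, LinearMap.BilinForm.baseChange_tmul, h, mul_smul]

theorem bc_symm (q : LinearMap.BilinForm ℤ V) (h : ∀ x y, q x y = q y x) (x y : A ⊗[ℤ] V) :
    q.baseChange A x y = q.baseChange A y x := by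
  induction x using TensorProduct.induction_on with
  | zero => simp
  | add x₁ x₂ h₁ h₂ =>
    rw [map_add, map_add, LinearMap.add_apply, h₁, h₂]
  | tmul a v =>
    induction y using TensorProduct.induction_on with
    | zero => simp
    | add y₁ y₂ h₁ h₂ =>
      rw [map_add, map_add, h₁, h₂, LinearMap.add_apply]
    | tmul b w =>
      rw [LinearMap.BilinForm.baseChange_tmul, LinearMap.BilinForm.baseChange_tmul, h v w,
        mul_comm a b]

/-- The reflection in a vector `v` of square two. -/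
noncomputable def refl (q : LinearMap.BilinForm ℤ V) (v : V) : V →ₗ[ℤ] V :=
  LinearMap.id - (q.flip v).smulRight v

theorem refl_apply (q : LinearMap.BilinForm ℤ V) (v x : V) :
    refl q v x = x - q x v • v := rfl

theorem refl_bc (q : LinearMap.BilinForm ℤ V) (v : V) (x : A ⊗[ℤ] V) :
    (refl q v).baseChange A x
      = x - q.baseChange A x ((1 : A) ⊗ₜ[ℤ] v) • ((1 : A) ⊗ₜ[ℤ] v) := by
  induction x using TensorProduct.induction_on with
  | zero => simp
  | add x₁ x₂ h₁ h₂ =>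
    rw [map_add, h₁, h₂, map_add, LinearMap.add_apply, add_smul]
    abel
  | tmul a x =>
    rw [LinearMap.baseChange_tmul, refl_apply, TensorProduct.tmul_sub,
      LinearMap.BilinForm.baseChange_tmul, mul_one, TensorProduct.tmul_smul]
    congr 1
    rw [TensorProduct.smul_tmul', TensorProduct.smul_tmul', smul_eq_mul, mul_one]

theorem refl_invol (q : LinearMap.BilinForm ℤ V) (v : V) (hv : q v v = 2) (x : V) :
    refl q v (refl q v x) = x := by
  rw [refl_apply, refl_apply, map_sub, LinearMap.sub_apply, map_smul, LinearMap.smul_apply, hv,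
    smul_eq_mul]
  have : q x v - q x v * 2 = - q x v := by ring
  rw [this, neg_smul]
  abel

theorem refl_bij (q : LinearMap.BilinForm ℤ V) (v : V) (hv : q v v = 2) :
    Function.Bijective (refl q v) :=
  (Function.Involutive.bijective (refl_invol q v hv))

theorem refl_isom (q : LinearMap.BilinForm ℤ V) (hs : ∀ x y, q x y = q y x) (v : V)
    (hv : q v v = 2) (x y : V) : q (refl q v x) (refl q v y) = q x y := by
  rw [refl_apply, refl_apply]
  simp only [map_sub, map_smul, LinearMap.sub_apply, LinearMap.smul_apply, smul_eq_mul]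
  rw [hv, hs v y]
  ring

end

/-! ## The transcendental lattice as a lattice -/

theorem mem_hdg_iff (A : HLat) (v : A.V) : v ∈ A.hdg ↔ (1 : ℂ) ⊗ₜ[ℤ] v ∈ A.H 2 := Iff.rfl

theorem mem_T_iff (A : HLat) (v : A.V) :
    v ∈ A.form.orthogonal A.hdg ↔ ∀ n ∈ A.hdg, A.form n v = 0 := Iff.rfl

theorem hdg_sat (X : HLat) (x : X.V) (n : ℤ) (hn : n ≠ 0) (h : n • x ∈ X.hdg) : x ∈ X.hdg := by
  rw [mem_hdg_iff] at h ⊢
  have h2 : (1 : ℂ) ⊗ₜ[ℤ] x = ((n : ℂ)⁻¹) • ((1 : ℂ) ⊗ₜ[ℤ] (n • x)) := by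
    rw [TensorProduct.tmul_smul, ← Int.cast_smul_eq_zsmul ℂ n, smul_smul,
      inv_mul_cancel₀ (Int.cast_ne_zero.mpr hn), one_smul]
  rw [h2]
  exact Submodule.smul_mem _ _ h

theorem hdgLat_prim (X : HLat) : PrimEmb (X.toLat.sub X.hdg) X.toLat X.hdg.subtype where
  inj := Subtype.val_injective
  isom := fun _ _ => rfl
  sat := by
    rintro v n hn ⟨w, hw⟩
    have h : n • v ∈ X.hdg := hw ▸ w.2
    exact ⟨⟨v, hdg_sat X v n hn h⟩, rfl⟩

theorem mem_hdg_of_orth (X : HLat) (x : X.V)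
    (h : ∀ t ∈ X.form.orthogonal X.hdg, X.form x t = 0) : x ∈ X.hdg := by
  obtain ⟨w, hw⟩ := perp_perp X.toLat (X.toLat.sub X.hdg) X.hdg.subtype X.unimod
    (hdgLat_prim X) x
    (fun n => h n.1 (by
      rw [mem_T_iff]
      intro v hv
      rw [X.symm]
      exact n.2 ⟨v, hv⟩))
  rw [← hw]
  exact w.2

theorem conj_one_tmul (L : Lat) (v : L.V) :
    L.conj ((1 : ℂ) ⊗ₜ[ℤ] v) = (1 : ℂ) ⊗ₜ[ℤ] v := by
  show TensorProduct.map _ _ _ = _
  rw [TensorProduct.map_tmul]
  congr 1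
  exact map_one (starRingEnd ℂ)

theorem tmul_one_ne (V : Type) [AddCommGroup V] [Module.Free ℤ V] (v : V) (hv : v ≠ 0) :
    (1 : ℂ) ⊗ₜ[ℤ] v ≠ 0 := by
  intro h
  apply hv
  have h1 : Function.Injective (LinearMap.rTensor V (Algebra.linearMap ℤ ℂ)) :=
    Module.Flat.rTensor_preserves_injective_linearMap _ (by
      intro a b h
      have h' : ((a : ℤ) : ℂ) = ((b : ℤ) : ℂ) := h
      exact Int.cast_injective h')
  have h2 : LinearMap.rTensor V (Algebra.linearMap ℤ ℂ) ((1 : ℤ) ⊗ₜ[ℤ] v) = 0 := by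
    rw [LinearMap.rTensor_tmul]
    simpa using h
  have h3 : (1 : ℤ) ⊗ₜ[ℤ] v = 0 := h1 (by rw [h2, map_zero])
  have h4 := congrArg (TensorProduct.lid ℤ V) h3
  simpa using h4

/-- `T_X ∩ Hdg_X = 0`. -/
theorem tr_inf_hdg (X : Coh) (x : X.V) (h1 : x ∈ X.form.orthogonal X.hdg) (h2 : x ∈ X.hdg) :
    x = 0 := by
  by_contra hx
  have h3 : X.form x x = 0 := (mem_T_iff _ _).mp h1 x h2
  obtain ⟨r, hr, hr2⟩ := X.pos ((1 : ℂ) ⊗ₜ[ℤ] x) h2 (fun i => by
    show X.form.baseChange ℂ ((1 : ℂ) ⊗ₜ[ℤ] X.a i) ((1 : ℂ) ⊗ₜ[ℤ] x) = 0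
    have h4 : X.form (X.a i) x = 0 := (mem_T_iff _ _).mp h1 (X.a i) (X.a_hodge i)
    rw [LinearMap.BilinForm.baseChange_tmul, h4, zero_smul]) (tmul_one_ne X.V x hx)
  rw [conj_one_tmul] at hr2
  have h5 : X.form.baseChange ℂ ((1 : ℂ) ⊗ₜ[ℤ] x) ((1 : ℂ) ⊗ₜ[ℤ] x) = (r : ℂ) := hr2
  rw [LinearMap.BilinForm.baseChange_tmul, h3, zero_smul] at h5
  have h4 : r = 0 := by exact_mod_cast h5.symm
  exact hr.ne' h4

/-- The lattice with the opposite form. -/
def neg (L : Lat) : Lat where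
  V := L.V
  form := -L.form
  symm := fun x y => by
    show -(L.form x y) = -(L.form y x)
    rw [L.symm]

theorem neg_nondeg (X : Coh) : (neg X.T).Nondeg := by
  intro x hx
  apply Subtype.ext
  apply tr_inf_hdg X x.1 x.2
  apply mem_hdg_of_orth
  intro t ht
  have h1 : -(X.form x.1 t) = 0 := hx ⟨t, ht⟩
  exact neg_eq_zero.mp h1

/-! ## The assembly -/

theorem prim_j (M : Mukai) (X : Coh) (j : X.T.Hom M.toLat)
    (h1 : ∀ s t, M.q (j s) (j t) = - X.T.q s t)
    (h2 : ∀ m, (∃ t, j t = m) ↔ ∀ n, M.Alg n → M.q n m = 0) :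
    PrimEmb (neg X.T) M.toLat j where
  inj := by
    intro (a : X.T.V) (b : X.T.V) hab
    have hab' : j a = j b := hab
    have h0 : (a - b : X.T.V) = 0 := by
      apply neg_nondeg X
      intro (t : X.T.V)
      have h3 : M.form (j (a - b : X.T.V)) (j t) = -(X.T.q (a - b : X.T.V) t) := h1 _ t
      rw [map_sub, hab', sub_self, map_zero, LinearMap.zero_apply] at h3
      exact h3.symm
    exact sub_eq_zero.mp h0
  isom := fun s t => h1 s t
  sat := by
    intro v n hn h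
    have h' : ∃ t, j t = v := by
      rw [h2]
      intro m hm
      have h3 : M.form m (n • v) = 0 := (h2 (n • v)).mp h m hm
      rw [map_smul, smul_eq_mul] at h3
      exact (mul_eq_zero.mp h3).resolve_left hn
    exact h'

/-- The isometry of transcendental lattices extends to an isometry of Mukai lattices. -/
theorem extend (M M' : Mukai) (hM : ∃ g, IsIsometry M.toLat M'.toLat g)
    (hN : Nikulin1144) (X Y : Coh) (j : X.T.Hom M.toLat) (j' : Y.T.Hom M'.toLat)
    (h1 : ∀ s t, M.q (j s) (j t) = - X.T.q s t)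
    (h2 : ∀ m, (∃ t, j t = m) ↔ ∀ n, M.Alg n → M.q n m = 0)
    (h1' : ∀ s t, M'.q (j' s) (j' t) = - Y.T.q s t)
    (h2' : ∀ m, (∃ t, j' t = m) ↔ ∀ n, M'.Alg n → M'.q n m = 0)
    (e f : M.V) (he : M.Alg e) (hf : M.Alg f) (hee : M.q e e = 0) (hff : M.q f f = 0)
    (hef : M.q e f = 2)
    (g : X.T.Hom Y.T) (hgb : Function.Bijective g)
    (hg : ∀ s t, Y.T.q (g s) (g t) = X.T.q s t) :
    ∃ G : M.Hom M'.toLat, IsIsometry M.toLat M'.toLat G ∧ ∀ t, G (j t) = j' (g t) := by
  obtain ⟨φ0, hφb, hφ0⟩ := hM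
  let φ : M.V ≃ₗ[ℤ] M'.V := LinearEquiv.ofBijective φ0 hφb
  have hφa : ∀ x, φ x = φ0 x := fun x => rfl
  have hφ' : ∀ x y, M.form (φ.symm x) (φ.symm y) = M'.form x y := by
    intro x y
    have h3 : M'.form (φ0 (φ.symm x)) (φ0 (φ.symm y)) = M.form (φ.symm x) (φ.symm y) :=
      hφ0 _ _
    rw [← h3, ← hφa, ← hφa, LinearEquiv.apply_symm_apply, LinearEquiv.apply_symm_apply]
  let g' : X.T.V ≃ₗ[ℤ] Y.T.V := LinearEquiv.ofBijective g hgb
  have hga : ∀ x, g' x = g x := fun x => rfl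
  have hp := prim_j M X j h1 h2
  have hp' := prim_j M' Y j' h1' h2'
  let k : X.T.V →ₗ[ℤ] M.V := φ.symm.toLinearMap ∘ₗ j' ∘ₗ g
  have hk : PrimEmb (neg X.T) M.toLat k :=
    { inj := by
        intro a b hab
        exact g'.injective (hp'.inj (φ.symm.injective hab))
      isom := by
        intro (s : X.T.V) (t : X.T.V)
        have h3 : M.form (φ.symm (j' (g s))) (φ.symm (j' (g t))) = -(X.T.q s t) := by
          rw [hφ']
          exact (h1' _ _).trans (by rw [hg])
        exact h3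
      sat := by
        rintro v n hn ⟨w, hw⟩
        have h3 : ∃ u, j' u = φ v := by
          apply hp'.sat (φ v) n hn
          refine ⟨g w, ?_⟩
          rw [← map_smul, ← hw]
          show j' (g w) = φ (φ.symm (j' (g w)))
          rw [LinearEquiv.apply_symm_apply]
        obtain ⟨u, hu⟩ := h3
        refine ⟨g'.symm u, ?_⟩
        show φ.symm (j' (g (g'.symm u))) = v
        rw [← hga, LinearEquiv.apply_symm_apply, hu, LinearEquiv.symm_apply_apply] }
  have hTe : (neg X.T).Even := by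
    intro x
    rw [← hp.isom]
    exact M.even _
  have he' : ∀ t : X.T.V, M.form e (j t) = 0 := fun t => (h2 (j t)).mp ⟨t, rfl⟩ e he
  have hf' : ∀ t : X.T.V, M.form f (j t) = 0 := fun t => (h2 (j t)).mp ⟨t, rfl⟩ f hf
  have hpl : ∀ t : X.T.V, M.form (e + f) (j t) = 0 := fun t => by
    rw [map_add, LinearMap.add_apply, he', hf', add_zero]
  have hmi : ∀ t : X.T.V, M.form (e - f) (j t) = 0 := fun t => by
    rw [map_sub, LinearMap.sub_apply, he', hf', sub_zero]
  have hee' : M.form e e = 0 := hee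
  have hff' : M.form f f = 0 := hff
  have hef' : M.form e f = 2 := hef
  obtain ⟨n1, n2⟩ := nik M.toLat (neg X.T) j M.even M.unimod hp e f he' hf' hee' hff' hef'
  have hfe' : M.form f e = 2 := by rw [M.symm, hef']
  have hp1 : 0 < M.form (e + f) (e + f) := by
    simp only [map_add, LinearMap.add_apply]
    rw [hee', hff', hef', hfe']
    norm_num
  have hm1 : M.form (e - f) (e - f) < 0 := by
    simp only [map_sub, LinearMap.sub_apply]
    rw [hee', hff', hef', hfe']
    norm_num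
  obtain ⟨G, hGb, hG1, hG2⟩ := hN M.toLat (neg X.T) M.even M.unimod hTe (neg_nondeg X) j k hp hk
    ⟨e + f, e - f, hpl, hmi, hp1, hm1⟩ n1 n2
  refine ⟨φ0 ∘ₗ G, ⟨hφb.comp hGb, fun x y => ?_⟩, fun t => ?_⟩
  · have h3 : M'.form (φ0 (G x)) (φ0 (G y)) = M.form (G x) (G y) := hφ0 _ _
    exact h3.trans (hG1 x y)
  · have h3 : G (j t) = φ.symm (j' (g t)) := hG2 t
    show φ0 (G (j t)) = j' (g t)
    rw [h3, ← hφa, LinearEquiv.apply_symm_apply]

/-- **Orientation.**  If an isometry of Mukai lattices does not preserve the orientations, its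
composition with the reflection in a vector of square two does. -/
theorem orient (M M' : Mukai) (G : M.Hom M'.toLat) (hG : IsIsometry M.toLat M'.toLat G)
    (v : M.V) (hv : M.q v v = 2) :
    0 < Matrix.det (Matrix.of fun i j : Fin 4 =>
      extR M'.form (G.baseChange ℝ (M.frame i)) (M'.frame j)) ∨
    0 < Matrix.det (Matrix.of fun i j : Fin 4 =>
      extR M'.form ((G ∘ₗ refl M.form v).baseChange ℝ (M.frame i)) (M'.frame j)) := by
  by_cases h : 0 < Matrix.det (Matrix.of fun i j : Fin 4 =>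
      extR M'.form (G.baseChange ℝ (M.frame i)) (M'.frame j))
  · exact Or.inl h
  right
  obtain ⟨hGb, hG⟩ := hG
  have hG' : ∀ x y, M'.form (G x) (G y) = M.form x y := hG
  let G' : M.V ≃ₗ[ℤ] M'.V := LinearEquiv.ofBijective G hGb
  have hGR : ∀ x y : ℝ ⊗[ℤ] M.V, M'.form.baseChange ℝ (G.baseChange ℝ x)
      (G.baseChange ℝ y) = M.form.baseChange ℝ x y := by
    intro x y
    have := bc_isom ℝ M.form M'.form G 1 (fun x y => by rw [one_mul]; exact hG' x y) x y
    rwa [one_smul] at this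
  have hsurj : ∀ y : ℝ ⊗[ℤ] M'.V, ∃ x, G.baseChange ℝ x = y := by
    intro y
    refine ⟨G'.symm.toLinearMap.baseChange ℝ y, ?_⟩
    rw [← LinearMap.comp_apply, ← LinearMap.baseChange_comp]
    have : G ∘ₗ G'.symm.toLinearMap = LinearMap.id := by
      apply LinearMap.ext
      intro z
      exact G'.apply_symm_apply z
    rw [this, LinearMap.baseChange_id, LinearMap.id_apply]
  have hneg : ∀ x : ℝ ⊗[ℤ] M'.V,
      (∀ i, M'.form.baseChange ℝ (G.baseChange ℝ (M.frame i)) x = 0) → x ≠ 0 →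
      M'.form.baseChange ℝ x x < 0 := by
    intro y hy hy0
    obtain ⟨x, rfl⟩ := hsurj y
    rw [hGR]
    apply M.frame_neg
    · intro i
      show M.form.baseChange ℝ (M.frame i) x = 0
      rw [← hGR]
      exact hy i
    · intro hx
      apply hy0
      rw [hx, map_zero]
  have hv0 : M.form v v = 2 := hv
  have hv' : M'.form.baseChange ℝ ((1 : ℝ) ⊗ₜ[ℤ] G v) ((1 : ℝ) ⊗ₜ[ℤ] G v) = 2 := by
    rw [LinearMap.BilinForm.baseChange_tmul, hG', hv0]
    norm_num
  have hmain := refl_det_neg (M'.form.baseChange ℝ) (bc_symm ℝ M'.form M'.symm)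
    (fun i => G.baseChange ℝ (M.frame i)) M'.frame hneg M'.frame_pos
    ((1 : ℝ) ⊗ₜ[ℤ] G v) hv'
  have hdet : (gram (M'.form.baseChange ℝ) (fun i => G.baseChange ℝ (M.frame i))
      M'.frame).det ≤ 0 := not_lt.mp h
  have hdet2 : 0 < (gram (M'.form.baseChange ℝ) (fun i => G.baseChange ℝ (M.frame i)
      - M'.form.baseChange ℝ (G.baseChange ℝ (M.frame i)) ((1 : ℝ) ⊗ₜ[ℤ] G v) •
        ((1 : ℝ) ⊗ₜ[ℤ] G v)) M'.frame).det := by
    by_contra hc
    exact absurd hmain (not_lt.mpr (mul_nonneg_of_nonpos_of_nonpos (not_lt.mp hc) hdet))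
  have heq : ∀ i, (G ∘ₗ refl M.form v).baseChange ℝ (M.frame i)
      = G.baseChange ℝ (M.frame i)
      - M'.form.baseChange ℝ (G.baseChange ℝ (M.frame i)) ((1 : ℝ) ⊗ₜ[ℤ] G v) •
        ((1 : ℝ) ⊗ₜ[ℤ] G v) := by
    intro i
    have h2 : (1 : ℝ) ⊗ₜ[ℤ] G v = G.baseChange ℝ ((1 : ℝ) ⊗ₜ[ℤ] v) := by
      rw [LinearMap.baseChange_tmul]
    rw [LinearMap.baseChange_comp, LinearMap.comp_apply, refl_bc, map_sub, map_smul, h2, hGR]
  show 0 < Matrix.det (Matrix.of fun i j : Fin 4 =>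
    M'.form.baseChange ℝ ((G ∘ₗ refl M.form v).baseChange ℝ (M.frame i)) (M'.frame j))
  simp only [heq]
  exact hdet2

/-- A Hodge isometry `T_X ≅ T_Y` extends to an orientation preserving Hodge isometry of the
Mukai lattices. -/
theorem core (M M' : Mukai) (hM : ∃ g, IsIsometry M.toLat M'.toLat g)
    (hN : Nikulin1144) (X Y : Coh) (hin : ∀ x ∈ X.H 3, ∃ y, mapC X.incl y = x)
    (hX : TrMukai X M) (hY : TrMukai Y M') (hA : AlgMukai M)
    (h : HodgeIsometric X.toHLat Y.toHLat) : ∃ G, M.HodgeIsom M' G := by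
  obtain ⟨g, hg1, hgb, hg2⟩ := h
  obtain ⟨j, j1, j2, j3⟩ := hX
  obtain ⟨j', j1', j2', j3'⟩ := hY
  obtain ⟨e, f, v, he, hf, hv, hee, hff, hef, hvv, -, -⟩ := hA
  obtain ⟨G, hG1, hG2⟩ := extend M M' hM hN X Y j j' j1 j2 j1' j2' e f he hf hee hff hef g hgb
    hg2
  -- the period
  obtain ⟨ω, hω⟩ := finrank_eq_one_iff'.mp X.one_dim
  obtain ⟨hω0, -⟩ := hω
  obtain ⟨y, hy⟩ := hin ω.1 ω.2
  have hyT : X.IsT 3 y := by
    show mapC X.incl y ∈ X.H 3
    rw [hy]
    exact ω.2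
  obtain ⟨c, hc⟩ := j3 y hyT
  have hc : j.baseChange ℂ y = c • M.σ := hc
  have hj : Function.Injective j := (prim_j M X j j1 j2).inj
  have hc0 : c ≠ 0 := by
    intro h0
    rw [h0, zero_smul] at hc
    have hinj : Function.Injective (j.baseChange ℂ) :=
      Module.Flat.lTensor_preserves_injective_linearMap j hj
    have hy0 : y = 0 := hinj (by rw [hc, map_zero])
    apply hω0
    apply Subtype.ext
    rw [← hy, hy0]
    exact map_zero (X.incl.baseChange ℂ)
  obtain ⟨c', hc'⟩ := j3' (g.baseChange ℂ y) (hg1 3 y hyT)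
  have hc' : j'.baseChange ℂ (g.baseChange ℂ y) = c' • M'.σ := hc'
  have hσ : M.σ = c⁻¹ • j.baseChange ℂ y := by
    rw [hc, smul_smul, inv_mul_cancel₀ hc0, one_smul]
  have hcomp : G ∘ₗ j = j' ∘ₗ g := LinearMap.ext fun t => hG2 t
  have hGσ : G.baseChange ℂ M.σ = (c⁻¹ * c') • M'.σ := by
    rw [hσ, map_smul, ← LinearMap.comp_apply, ← LinearMap.baseChange_comp, hcomp,
      LinearMap.baseChange_comp, LinearMap.comp_apply, hc', smul_smul]
  have hvv' : M.form v v = 2 := hvv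
  have hiso' : IsIsometry M.toLat M'.toLat (G ∘ₗ refl M.form v) := by
    refine ⟨hG1.1.comp (refl_bij M.form v hvv'), fun x y => ?_⟩
    have h3 : M'.form (G (refl M.form v x)) (G (refl M.form v y))
        = M.form (refl M.form v x) (refl M.form v y) := hG1.2 _ _
    exact h3.trans (refl_isom M.form M.symm v hvv' x y)
  have hσ' : (G ∘ₗ refl M.form v).baseChange ℂ M.σ = (c⁻¹ * c') • M'.σ := by
    have h2 : M.form.baseChange ℂ M.σ ((1 : ℂ) ⊗ₜ[ℤ] v) = 0 := by
      rw [bc_symm ℂ M.form M.symm]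
      exact hv
    rw [LinearMap.baseChange_comp, LinearMap.comp_apply, refl_bc, h2, zero_smul, sub_zero,
      hGσ]
  rcases orient M M' G hG1 v hvv with h1 | h1
  · exact ⟨G, hG1, ⟨_, hGσ⟩, h1⟩
  · exact ⟨_, hiso', ⟨_, hσ'⟩, h1⟩

/-- **A Hodge isometry `T_X ≅ T_Y` gives an equivalence `Ku(X) ≅ Ku(Y)`.** -/
theorem ku_of_hodgeIsometric (D : VerraData) (X Y : D.Verra)
    (hin : ∀ x ∈ (D.coh X).H 3, ∃ y, mapC (D.coh X).incl y = x)
    (h : HodgeIsometric (D.coh X).toHLat (D.coh Y).toHLat) : D.Equiv (D.Ku X) (D.Ku Y) := by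
  obtain ⟨G, hG⟩ := core _ _ (D.mukai_iso (D.assoc X) (D.assoc Y)) D.nikulin (D.coh X)
    (D.coh Y) hin (D.tr_mukai X) (D.tr_mukai Y) (D.alg_mukai X) h
  exact D.equiv_trans (D.ku_db X) (D.equiv_trans (D.huybrechts_stellari _ _ G hG)
    (D.equiv_symm (D.ku_db Y)))

end H91.VG.Asm
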