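import Pool.Agent.H91.VG.Defs

/-!
# Bittner's theorem: L-equivalent varieties have equal invariants
-/

namespace H91.VG

/-- **Bittner.**  An invariant that satisfies the blow-up relation and on which the Lefschetz
motive acts by an injective endomorphism takes the same value on L-equivalent varieties. -/
theorem eq_of_lEq (D : VerraData) (A : Type) [AddCommGroup A] (χ : D.Var → A)
    (hχ : ∀ W Z B E m, D.Blow W Z B E m → χ B + χ Z = χ W + χ E)
    (lef : A →+ A) (hl : Function.Injective lef) (hP : ∀ W, χ (D.P1 W) - χ W = lef (χ W))
    (X Y : D.Verra) (h : D.LEq X Y) : χ (D.var X) = χ (D.var Y) := by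
  obtain ⟨F, hF⟩ := D.bittner A χ (by
    intro W Z B E m hb
    have := hχ W Z B E m hb
    rw [sub_eq_sub_iff_add_eq_add, this, add_comm])
  have hpow : ∀ (k : ℕ) (W : D.Var), F (D.cls W * D.L ^ k) = (lef : A → A)^[k] (χ W) := by
    intro k
    induction k with
    | zero =>
      intro W
      rw [pow_zero, mul_one, hF]
      rfl
    | succ k ih =>
      intro W
      have h1 : D.cls W * D.L ^ (k + 1) = D.cls (D.P1 W) * D.L ^ k - D.cls W * D.L ^ k := by
        rw [D.cls_P1]
        ring
      rw [h1, map_sub, ih, ih, Function.iterate_succ_apply, ← hP W]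
      have h2 : ∀ (n : ℕ) (a b : A), (lef : A → A)^[n] (a - b)
          = (lef : A → A)^[n] a - (lef : A → A)^[n] b := by
        intro n
        induction n with
        | zero => intro a b; rfl
        | succ n ih =>
          intro a b
          rw [Function.iterate_succ_apply, Function.iterate_succ_apply,
            Function.iterate_succ_apply, map_sub, ih]
      rw [h2]
  obtain ⟨k, hk⟩ := h
  rw [sub_mul, sub_eq_zero] at hk
  have h3 := congrArg F hk
  rw [hpow, hpow] at h3
  exact (hl.iterate k) h3

end H91.VG
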