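import Pool.Agent.H38.VG.Anti

/-!
# Rank one hermitian lattices with equal determinant, and Bittner's relation
-/

set_option linter.unusedSectionVars false

namespace H91.VG

open Module nonZeroDivisors

namespace HermMod

variable {R K : Type} [CommRing R] [IsDedekindDomain R] [Field K] [Algebra R K]
  [IsFractionRing R K] {ι : K →+* ℂ}

/-- The ideal of a rank one lattice. -/
theorem mem_detSub_one {E : Type} [AddCommGroup E] [Module K E] [Module R E]
    [IsScalarTower R K E] (b : Basis (Fin 1) K E) (M : Submodule R E) (c : K) :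
    c ∈ detSub b M ↔ c • b 0 ∈ M := by
  have hdet : ∀ m : Fin 1 → E, b.det m = b.repr (m 0) 0 := by
    intro m
    rw [Basis.det_apply, Matrix.det_fin_one, Basis.toMatrix_apply]
  have hrep : ∀ x : E, b.repr x 0 • b 0 = x := by
    intro x
    have := b.sum_repr x
    simpa using this
  constructor
  · intro hc
    unfold detSub at hc
    induction hc using Submodule.span_induction with
    | mem x hx =>
      obtain ⟨m, hm, rfl⟩ := hx
      rw [hdet, hrep]
      exact hm 0
    | zero => rw [zero_smul]; exact M.zero_mem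
    | add x y _ _ hx hy => rw [add_smul]; exact M.add_mem hx hy
    | smul r x _ hx => rw [smul_assoc]; exact M.smul_mem r hx
  · intro hc
    refine Submodule.subset_span ⟨fun _ => c • b 0, fun _ => hc, ?_⟩
    rw [hdet, map_smul, Finsupp.smul_apply, Basis.repr_self, Finsupp.single_eq_same, smul_eq_mul,
      mul_one]

/-- **Equal determinants in rank one.**  If `H = R b` with `h(b, b) = 1` and `H'` has rank one
and the same determinant, then `H' = R x` with `h'(x, x) = 1`. -/
theorem exists_unit_vector (H H' : HermMod R K ι) (hD : H.D = H'.D)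
    (b : H.E) (hb : H.h b b = 1) (hM : ∀ x, x ∈ H.M ↔ ∃ r : R, x = r • b)
    (h1 : H.rank = 1) (h1' : H'.rank = 1) :
    ∃ x ∈ H'.M, H'.h x x = 1 ∧ ∀ y ∈ H'.M, ∃ r : R, y = r • x := by
  have hb0 : b ≠ 0 := by
    intro h
    rw [h, H.zero_left] at hb
    exact zero_ne_one hb
  -- the basis `b`
  let B : Basis (Fin 1) K H.E := basisOfLinearIndependentOfCardEqFinrank (b := fun _ => b)
    (by
      rw [linearIndependent_unique_iff]
      exact hb0) (by
      have h2 : finrank K H.E = 1 := h1
      rw [h2, Fintype.card_fin])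
  have hB : B 0 = b := by
    simp [B]
  let B' : Basis (Fin 1) K H'.E := finBasisOfFinrankEq K H'.E h1'
  have hI : detSub B H.M = 1 := by
    ext c
    rw [mem_detSub_one, hB, hM, Submodule.mem_one]
    constructor
    · rintro ⟨r, hr⟩
      refine ⟨r, ?_⟩
      have h3 : (c - algebraMap R K r) • b = 0 := by
        rw [sub_smul, hr, algebraMap_smul, sub_self]
      rcases smul_eq_zero.mp h3 with h4 | h4
      · exact (sub_eq_zero.mp h4).symm
      · exact absurd h4 hb0
    · rintro ⟨r, rfl⟩
      exact ⟨r, by rw [algebraMap_smul]⟩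
  rw [H.D_eq B, H'.D_eq B', DGrp.mk_eq] at hD
  obtain ⟨z, hz'⟩ := hD
  have e1 : Submodule.span R {(z : K)} = detSub B' H'.M := by
    have h5 := congrArg (fun p : DPair R K => ((p.1 : (Submodule R K)ˣ) : Submodule R K)) hz'
    have h6 : detSub B H.M * Submodule.span R {(z : K)} = detSub B' H'.M := h5
    rwa [hI, one_mul] at h6
  have e2 : (ι z * starRingEnd ℂ (ι z))⁻¹ = H'.gram B' := by
    have h5 := congrArg (fun p : DPair R K => ((p.2 : ℂˣ) : ℂ)) hz'
    have h6 : H.gram B * (((prin R K ι) z).2 : ℂ) = H'.gram B' := h5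
    have h7 : H.gram B = 1 := by
      unfold gram
      rw [Matrix.det_fin_one, Matrix.of_apply, hB, hb]
    rwa [h7, one_mul, prin_snd] at h6
  have h8 : H'.gram B' = H'.h (B' 0) (B' 0) := by
    unfold gram
    rw [Matrix.det_fin_one, Matrix.of_apply]
  have hzK : (z : K) ≠ 0 := z.ne_zero
  have hz0 : ι (z : K) ≠ 0 := (map_ne_zero ι).mpr hzK
  have hz1 : starRingEnd ℂ (ι (z : K)) ≠ 0 := (map_ne_zero _).mpr hz0
  refine ⟨(z : K) • B' 0, ?_, ?_, ?_⟩
  · rw [← mem_detSub_one, ← e1]
    exact Submodule.mem_span_singleton_self _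
  · rw [H'.smul_left, H'.smul_right, ← h8, ← e2, ← mul_assoc]
    exact mul_inv_cancel₀ (mul_ne_zero hz0 hz1)
  · intro y hy
    have h9 : B'.repr y 0 • B' 0 = y := by
      have := B'.sum_repr y
      simpa using this
    have h10 : B'.repr y 0 ∈ detSub B' H'.M := by
      rw [mem_detSub_one, h9]
      exact hy
    rw [← e1, Submodule.mem_span_singleton] at h10
    obtain ⟨r, hr⟩ := h10
    refine ⟨r, ?_⟩
    rw [← h9, ← hr, smul_assoc]

/-! ## Bittner's relation -/

/-- The invariant. -/
noncomputable def chi (H : HermMod R K ι) : Additive (DGrp R K ι) × ℤ :=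
  (Additive.ofMul H.D, (H.rank : ℤ))

theorem sign_exp (c : ℕ) (hc : 1 ≤ c) :
    (c - 1) * (c - 1 - 1) / 2 + (c - 1) = c * (c - 1) / 2 := by
  obtain ⟨m, rfl⟩ := Nat.exists_eq_add_of_le' hc
  have h1 : (m + 1) * m = m * (m - 1) + m * 2 := by
    cases m with
    | zero => rfl
    | succ k =>
      simp only [Nat.add_sub_cancel]
      ring
  rw [Nat.add_sub_cancel, h1, Nat.add_mul_div_right _ _ (by norm_num : 0 < 2)]

/-- **Bittner's relation for the determinant.** -/
theorem chi_blow (HW HZ HE HB HK : HermMod R K ι) (c : ℕ) (hc : 1 ≤ c)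
    (hE : HE.D = HZ.D ^ c * sg R K ι (((-1) ^ (c * (c - 1) / 2) * 1 ^ c) ^ HZ.rank))
    (hEr : HE.rank = c * HZ.rank)
    (hK : HK.D = HZ.D ^ (c - 1) *
      sg R K ι (((-1) ^ ((c - 1) * (c - 1 - 1) / 2) * (-1) ^ (c - 1)) ^ HZ.rank))
    (hKr : HK.rank = (c - 1) * HZ.rank)
    (hB : HB.D = HW.D * HK.D) (hBr : HB.rank = HW.rank + HK.rank) :
    chi HB + chi HZ = chi HW + chi HE := by
  apply Prod.ext
  · show Additive.ofMul (HB.D * HZ.D) = Additive.ofMul (HW.D * HE.D)
    rw [hB, hK, hE, one_pow, mul_one, ← pow_add, sign_exp c hc]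
    congr 1
    have h1 : HZ.D ^ c = HZ.D ^ (c - 1) * HZ.D := by
      rw [← pow_succ, Nat.sub_add_cancel hc]
    rw [h1]
    simp only [mul_assoc]
    congr 2
    exact mul_comm _ _
  · show (HB.rank : ℤ) + HZ.rank = HW.rank + HE.rank
    rw [hBr, hKr, hEr]
    obtain ⟨m, rfl⟩ := Nat.exists_eq_add_of_le' hc
    rw [Nat.add_sub_cancel]
    push_cast
    ring

/-- The action of the Lefschetz motive. -/
noncomputable def lef (R K : Type) [CommRing R] [IsDedekindDomain R] [Field K] [Algebra R K]
    [IsFractionRing R K] (ι : K →+* ℂ) :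
    (Additive (DGrp R K ι) × ℤ) →+ (Additive (DGrp R K ι) × ℤ) where
  toFun g := (g.1 + g.2 • Additive.ofMul (sg R K ι (-1)), g.2)
  map_zero' := by simp
  map_add' := by
    intro a b
    apply Prod.ext
    · simp only [Prod.fst_add, Prod.snd_add, add_smul]
      abel
    · rfl

theorem lef_injective : Function.Injective (lef R K ι) := by
  intro a b h
  have h2' : ((lef R K ι) a).2 = ((lef R K ι) b).2 := by rw [h]
  have h2 : a.2 = b.2 := h2'
  have h1' : ((lef R K ι) a).1 = ((lef R K ι) b).1 := by rw [h]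
  have h1 : a.1 + a.2 • Additive.ofMul (sg R K ι (-1))
    = b.1 + b.2 • Additive.ofMul (sg R K ι (-1)) := h1'
  rw [h2] at h1
  exact Prod.ext (add_right_cancel h1) h2

/-- The product with the projective line. -/
theorem chi_P1 (HZ HP : HermMod R K ι)
    (hP : HP.D = HZ.D ^ 2 * sg R K ι (((-1) ^ (2 * (2 - 1) / 2) * 1 ^ 2) ^ HZ.rank))
    (hPr : HP.rank = 2 * HZ.rank) : chi HP - chi HZ = lef R K ι (chi HZ) := by
  rw [sub_eq_iff_eq_add]
  apply Prod.ext
  · show Additive.ofMul HP.D
      = (Additive.ofMul HZ.D + (HZ.rank : ℤ) • Additive.ofMul (sg R K ι (-1)))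
        + Additive.ofMul HZ.D
    rw [hP, natCast_zsmul, ← ofMul_pow, ← ofMul_mul, ← ofMul_mul, ← map_pow]
    congr 1
    norm_num
    rw [pow_two]
    simp only [mul_assoc, mul_comm]
  · show (HP.rank : ℤ) = HZ.rank + HZ.rank
    rw [hPr]
    push_cast
    ring

end HermMod

end H91.VG
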