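import Pool.Agent.H82.VG.Anti
import Pool.Agent.H52.VG.Det

/-!
# Hermitian lattices over a Dedekind domain and their determinant
-/

set_option linter.unusedSectionVars false

namespace H91.VG

open Module nonZeroDivisors

section

variable {R K : Type} [CommRing R] [IsDedekindDomain R] [Field K] [Algebra R K]
  [IsFractionRing R K]

/-- A nonzero finitely generated submodule of `K` is invertible. -/
theorem isUnit_of_fg (N : Submodule R K) (h : N.FG) (h0 : N ≠ ⊥) : IsUnit N := by
  let I : FractionalIdeal R⁰ K := ⟨N, FractionalIdeal.isFractional_of_fg h⟩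
  have hI : I ≠ 0 := by
    intro h1
    apply h0
    have h2 : (I : Submodule R K) = ((0 : FractionalIdeal R⁰ K) : Submodule R K) := by rw [h1]
    rw [FractionalIdeal.coe_zero] at h2
    exact h2
  have h3 : I * I⁻¹ = 1 := mul_inv_cancel₀ hI
  have h4 : ((I * I⁻¹ : FractionalIdeal R⁰ K) : Submodule R K) = 1 := by
    rw [h3, FractionalIdeal.coe_one]
  rw [FractionalIdeal.coe_mul] at h4
  exact IsUnit.of_mul_eq_one _ h4

/-- Principal submodules. -/
def spanHom : K →* Submodule R K where
  toFun z := Submodule.span R {z}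
  map_one' := by rw [Submodule.one_eq_span]
  map_mul' x y := by
    rw [Submodule.span_mul_span, Set.singleton_mul_singleton]

theorem spanHom_apply (z : K) : (spanHom z : Submodule R K) = Submodule.span R {z} := rfl

end

section

variable (R K : Type) [CommRing R] [IsDedekindDomain R] [Field K] [Algebra R K]
  [IsFractionRing R K] (ι : K →+* ℂ)

/-- A hermitian `R`-lattice. -/
structure HermMod where
  E : Type
  [acg : AddCommGroup E]
  [modK : Module K E]
  [modR : Module R E]
  [tower : IsScalarTower R K E]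
  [fd : FiniteDimensional K E]
  M : Submodule R E
  fg : M.FG
  span : Submodule.span K (M : Set E) = ⊤
  h : E → E → ℂ
  add_left : ∀ x y z, h (x + y) z = h x z + h y z
  add_right : ∀ x y z, h x (y + z) = h x y + h x z
  smul_left : ∀ (a : K) x y, h (a • x) y = ι a * h x y
  smul_right : ∀ (a : K) x y, h x (a • y) = starRingEnd ℂ (ι a) * h x y
  nondeg : ∃ (n : ℕ) (b : Basis (Fin n) K E), (Matrix.of fun i j => h (b i) (b j)).det ≠ 0

attribute [instance] HermMod.acg HermMod.modK HermMod.modR HermMod.tower HermMod.fd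

/-- Pairs of an invertible submodule of `K` and a nonzero complex number. -/
abbrev DPair := (Submodule R K)ˣ × ℂˣ

/-- The pairs `(z R, |z|⁻²)`. -/
noncomputable def prin : Kˣ →* DPair R K :=
  MonoidHom.prod (Units.map (spanHom (R := R)))
    ((Units.map ((ι : K →* ℂ) * ((starRingEnd ℂ : ℂ →* ℂ).comp (ι : K →* ℂ))))⁻¹)

theorem prin_fst (z : Kˣ) :
    (((prin R K ι) z).1 : Submodule R K) = Submodule.span R {(z : K)} := rfl

theorem prin_snd (z : Kˣ) :
    (((prin R K ι) z).2 : ℂ) = (ι z * starRingEnd ℂ (ι z))⁻¹ := by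
  unfold prin
  rw [MonoidHom.prod_apply, MonoidHom.inv_apply, Units.val_inv_eq_inv_val]
  rfl

/-- The target of the determinant. -/
def DGrp : Type := DPair R K ⧸ (prin R K ι).range

noncomputable instance : CommGroup (DGrp R K ι) :=
  QuotientGroup.Quotient.commGroup (prin R K ι).range

/-- The class of a pair. -/
noncomputable def DGrp.mk : DPair R K →* DGrp R K ι := QuotientGroup.mk' (prin R K ι).range

theorem DGrp.mk_eq {a b : DPair R K} :
    DGrp.mk R K ι a = DGrp.mk R K ι b ↔ ∃ z : Kˣ, a * prin R K ι z = b := by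
  show (QuotientGroup.mk a : DPair R K ⧸ (prin R K ι).range) = QuotientGroup.mk b ↔ _
  rw [QuotientGroup.eq]
  constructor
  · rintro ⟨z, hz⟩
    exact ⟨z, by rw [hz, mul_inv_cancel_left]⟩
  · rintro ⟨z, hz⟩
    exact ⟨z, by rw [← hz, inv_mul_cancel_left]⟩

end

namespace HermMod

variable {R K : Type} [CommRing R] [IsDedekindDomain R] [Field K] [Algebra R K]
  [IsFractionRing R K] {ι : K →+* ℂ} (H : HermMod R K ι)

theorem zero_left (y : H.E) : H.h 0 y = 0 := by
  have := H.add_left 0 0 y
  rw [add_zero] at this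
  simpa using this

theorem zero_right (x : H.E) : H.h x 0 = 0 := by
  have := H.add_right x 0 0
  rw [add_zero] at this
  simpa using this

theorem sum_left {α : Type} (s : Finset α) (f : α → H.E) (y : H.E) :
    H.h (∑ i ∈ s, f i) y = ∑ i ∈ s, H.h (f i) y := by
  classical
  induction s using Finset.induction_on with
  | empty => simp [H.zero_left]
  | insert a s ha ih => rw [Finset.sum_insert ha, Finset.sum_insert ha, H.add_left, ih]

theorem sum_right {α : Type} (s : Finset α) (f : α → H.E) (x : H.E) :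
    H.h x (∑ i ∈ s, f i) = ∑ i ∈ s, H.h x (f i) := by
  classical
  induction s using Finset.induction_on with
  | empty => simp [H.zero_right]
  | insert a s ha ih => rw [Finset.sum_insert ha, Finset.sum_insert ha, H.add_right, ih]

/-- The Gram determinant. -/
noncomputable def gram {α : Type} [Fintype α] [DecidableEq α] (b : α → H.E) : ℂ :=
  (Matrix.of fun i j => H.h (b i) (b j)).det

/-- Gram determinants of arbitrary families. -/
theorem gram_eq {α β : Type} [Fintype α] [DecidableEq α] [Fintype β] [DecidableEq β]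
    (b : Basis α K H.E) (e : β ≃ α) (m : β → H.E) :
    H.gram m = ι (b.det (m ∘ e.symm)) * starRingEnd ℂ (ι (b.det (m ∘ e.symm))) * H.gram b := by
  have h0 : H.gram m = H.gram (m ∘ e.symm) := by
    unfold gram
    rw [← Matrix.det_reindex_self e]
    rfl
  rw [h0]
  set x := m ∘ e.symm with hx
  let P : Matrix α α K := b.toMatrix x
  have hP : ∀ j, x j = ∑ i, P i j • b i := fun j => (b.sum_toMatrix_smul_self x j).symm
  have h1 : (Matrix.of fun i j => H.h (x i) (x j))
      = (P.map ι).transpose * (Matrix.of fun i j => H.h (b i) (b j)) *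
        (P.map ι).map (starRingEnd ℂ) := by
    ext i j
    rw [Matrix.mul_apply, Matrix.of_apply, hP i, hP j, H.sum_right]
    refine Finset.sum_congr rfl fun k _ => ?_
    rw [H.smul_right, H.sum_left, Matrix.mul_apply, mul_comm]
    congr 1
    refine Finset.sum_congr rfl fun l _ => ?_
    rw [H.smul_left]
    rfl
  unfold gram
  rw [h1, Matrix.det_mul, Matrix.det_mul, Matrix.det_transpose]
  have h2 : (P.map ι).det = ι (b.det x) := by
    rw [Basis.det_apply]
    exact (RingHom.map_det ι P).symm
  have h3 : ((P.map ι).map (starRingEnd ℂ)).det = starRingEnd ℂ (ι (b.det x)) := by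
    rw [← h2]
    exact (RingHom.map_det (starRingEnd ℂ) (P.map ι)).symm
  rw [h2, h3]
  ring

theorem gram_ne_zero {α : Type} [Fintype α] [DecidableEq α] (b : Basis α K H.E) :
    H.gram b ≠ 0 := by
  obtain ⟨n, b', hb'⟩ := H.nondeg
  let e : Fin n ≃ α := b'.indexEquiv b
  have h1 := H.gram_eq b e b'
  have h2 : H.gram b' ≠ 0 := hb'
  rw [h1] at h2
  exact right_ne_zero_of_mul h2

/-- The value in a basis. -/
noncomputable def val {α : Type} [Fintype α] [DecidableEq α] (b : Basis α K H.E) :
    DPair R K :=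
  ((isUnit_of_fg (detSub b H.M) (detSub_fg b H.M H.fg)
    (detSub_ne_bot b H.M H.span)).unit, Units.mk0 (H.gram b) (H.gram_ne_zero b))

/-- The determinant of a hermitian lattice. -/
noncomputable def D : DGrp R K ι := DGrp.mk R K ι (H.val (finBasis K H.E))

/-- Independence of the basis. -/
theorem D_eq {α : Type} [Fintype α] [DecidableEq α] (b : Basis α K H.E) :
    H.D = DGrp.mk R K ι (H.val b) := by
  set c := finBasis K H.E with hc
  let e : α ≃ Fin (finrank K H.E) := b.indexEquiv c
  show DGrp.mk R K ι (H.val c) = DGrp.mk R K ι (H.val b)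
  rw [DGrp.mk_eq]
  -- `z = b.det (c ∘ e)`
  have hz : b.det (c ∘ e) ≠ 0 := by
    have := b.isUnit_det (c.reindex e.symm)
    have h1 : (⇑(c.reindex e.symm)) = c ∘ e := by
      ext i
      simp
    rw [h1] at this
    exact this.ne_zero
  have hg : H.gram c = ι (b.det (c ∘ e)) * starRingEnd ℂ (ι (b.det (c ∘ e))) * H.gram b :=
    H.gram_eq b e.symm c
  have hd : detSub b H.M = Submodule.span R {b.det (c ∘ e)} * detSub c H.M :=
    detSub_change c b e.symm H.M
  refine ⟨Units.mk0 _ hz, ?_⟩
  apply Prod.ext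
  · apply Units.ext
    show detSub c H.M * Submodule.span R {b.det (c ∘ e)} = detSub b H.M
    rw [hd, mul_comm]
  · apply Units.ext
    show H.gram c * (((prin R K ι) (Units.mk0 _ hz)).2 : ℂ) = H.gram b
    rw [prin_snd, Units.val_mk0]
    have h2 : ι (b.det (c ∘ e)) ≠ 0 := (map_ne_zero ι).mpr hz
    have h3 : starRingEnd ℂ (ι (b.det (c ∘ e))) ≠ 0 := (map_ne_zero _).mpr h2
    rw [hg]
    field_simp

/-- The rank. -/
noncomputable def rank : ℕ := finrank K H.E

/-- Isomorphic hermitian lattices have the same determinant. -/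
theorem D_congr (H' : HermMod R K ι) (f : H.E ≃ₗ[K] H'.E) (hM : ∀ x, x ∈ H.M ↔ f x ∈ H'.M)
    (hh : ∀ x y, H'.h (f x) (f y) = H.h x y) : H'.D = H.D := by
  let b := finBasis K H.E
  rw [H.D_eq b, H'.D_eq (b.map f)]
  congr 1
  apply Prod.ext
  · apply Units.ext
    exact detSub_map b f H.M H'.M hM
  · apply Units.ext
    show H'.gram (b.map f) = H.gram b
    unfold gram
    congr 1
    ext i j
    simp [hh]

theorem rank_congr (H' : HermMod R K ι) (f : H.E ≃ₗ[K] H'.E) : H'.rank = H.rank :=
  (LinearEquiv.finrank_eq f).symm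

/-- Orthogonal sums. -/
theorem D_prod (H₁ H₂ : HermMod R K ι) (f : H.E ≃ₗ[K] H₁.E × H₂.E)
    (hM : ∀ x, x ∈ H.M ↔ (f x).1 ∈ H₁.M ∧ (f x).2 ∈ H₂.M)
    (hh : ∀ x y, H.h x y = H₁.h (f x).1 (f y).1 + H₂.h (f x).2 (f y).2) :
    H.D = H₁.D * H₂.D := by
  let b₁ := finBasis K H₁.E
  let b₂ := finBasis K H₂.E
  let b := (b₁.prod b₂).map f.symm
  rw [H₁.D_eq b₁, H₂.D_eq b₂, H.D_eq b, ← map_mul]
  congr 1
  apply Prod.ext
  · apply Units.ext
    show detSub b H.M = detSub b₁ H₁.M * detSub b₂ H₂.M
    rw [← detSub_prod]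
    refine detSub_map (b₁.prod b₂) f.symm (H₁.M.prod H₂.M) H.M ?_
    intro x
    rw [hM, LinearEquiv.apply_symm_apply]
    rfl
  · apply Units.ext
    show H.gram b = H₁.gram b₁ * H₂.gram b₂
    unfold gram
    rw [← Matrix.det_fromBlocks_zero₂₁ _ 0]
    congr 1
    ext i j
    rw [Matrix.of_apply, hh]
    simp only [b, Basis.map_apply, LinearEquiv.apply_symm_apply]
    rcases i with i | i <;> rcases j with j | j <;>
      simp [Matrix.fromBlocks, Basis.prod_apply, H₁.zero_left, H₁.zero_right, H₂.zero_left,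
        H₂.zero_right]

theorem rank_prod (H₁ H₂ : HermMod R K ι) (f : H.E ≃ₗ[K] H₁.E × H₂.E) :
    H.rank = H₁.rank + H₂.rank := by
  unfold rank
  rw [LinearEquiv.finrank_eq f, finrank_prod]

end HermMod

end H91.VG
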