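import Pool.Agent.H38.VG.Amb
import Pool.Agent.H38.VG.Fin

/-!
# Bittner's relation for hermitian lattices in complex vector spaces
-/

set_option linter.unusedSectionVars false

namespace H91.VG

open Module nonZeroDivisors

/-! ## Spans -/

section span

variable {K V V₁ V₂ : Type} [Field K] [AddCommGroup V] [Module K V] [AddCommGroup V₁]
  [Module K V₁] [AddCommGroup V₂] [Module K V₂]

/-- The span of a product. -/
theorem exists_spanProd (g : V ≃ₗ[K] (V₁ × V₂)) (S : AddSubgroup V) (S₁ : AddSubgroup V₁)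
    (S₂ : AddSubgroup V₂) (h : ∀ x, x ∈ S ↔ (g x).1 ∈ S₁ ∧ (g x).2 ∈ S₂) :
    ∃ e : (Submodule.span K (S : Set V)) ≃ₗ[K]
        ((Submodule.span K (S₁ : Set V₁)) × (Submodule.span K (S₂ : Set V₂))),
      ∀ x, ((e x).1 : V₁) = (g x).1 ∧ ((e x).2 : V₂) = (g x).2 := by
  have h1 : ∀ x ∈ Submodule.span K (S : Set V),
      (g x).1 ∈ Submodule.span K (S₁ : Set V₁) ∧ (g x).2 ∈ Submodule.span K (S₂ : Set V₂) := by
    intro x hx
    induction hx using Submodule.span_induction with
    | mem x hx =>
      have := (h x).mp hx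
      exact ⟨Submodule.subset_span this.1, Submodule.subset_span this.2⟩
    | zero =>
      rw [map_zero]
      exact ⟨Submodule.zero_mem _, Submodule.zero_mem _⟩
    | add x y _ _ hx hy =>
      rw [map_add]
      exact ⟨Submodule.add_mem _ hx.1 hy.1, Submodule.add_mem _ hx.2 hy.2⟩
    | smul a x _ hx =>
      rw [map_smul]
      exact ⟨Submodule.smul_mem _ a hx.1, Submodule.smul_mem _ a hx.2⟩
  have h2 : ∀ y ∈ Submodule.span K (S₁ : Set V₁),
      g.symm (y, 0) ∈ Submodule.span K (S : Set V) := by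
    intro y hy
    induction hy using Submodule.span_induction with
    | mem y hy =>
      apply Submodule.subset_span
      rw [SetLike.mem_coe, h, LinearEquiv.apply_symm_apply]
      exact ⟨hy, S₂.zero_mem⟩
    | zero =>
      have : g.symm ((0 : V₁), (0 : V₂)) = 0 := map_zero g.symm
      rw [this]
      exact Submodule.zero_mem _
    | add x y _ _ hx hy =>
      have : g.symm (x + y, (0 : V₂)) = g.symm (x, 0) + g.symm (y, 0) := by
        rw [← map_add]; simp
      rw [this]
      exact Submodule.add_mem _ hx hy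
    | smul a x _ hx =>
      have : g.symm (a • x, (0 : V₂)) = a • g.symm (x, 0) := by
        rw [← map_smul]; simp
      rw [this]
      exact Submodule.smul_mem _ a hx
  have h3 : ∀ y ∈ Submodule.span K (S₂ : Set V₂),
      g.symm (0, y) ∈ Submodule.span K (S : Set V) := by
    intro y hy
    induction hy using Submodule.span_induction with
    | mem y hy =>
      apply Submodule.subset_span
      rw [SetLike.mem_coe, h, LinearEquiv.apply_symm_apply]
      exact ⟨S₁.zero_mem, hy⟩
    | zero =>
      have : g.symm ((0 : V₁), (0 : V₂)) = 0 := map_zero g.symm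
      rw [this]
      exact Submodule.zero_mem _
    | add x y _ _ hx hy =>
      have : g.symm ((0 : V₁), x + y) = g.symm (0, x) + g.symm (0, y) := by
        rw [← map_add]; simp
      rw [this]
      exact Submodule.add_mem _ hx hy
    | smul a x _ hx =>
      have : g.symm ((0 : V₁), a • x) = a • g.symm (0, x) := by
        rw [← map_smul]; simp
      rw [this]
      exact Submodule.smul_mem _ a hx
  refine ⟨{ toFun := fun x => (⟨(g x).1, (h1 x x.2).1⟩, ⟨(g x).2, (h1 x x.2).2⟩)
            map_add' := ?_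
            map_smul' := ?_
            invFun := fun y => ⟨g.symm (y.1, y.2), ?_⟩
            left_inv := ?_
            right_inv := ?_ }, fun x => ⟨rfl, rfl⟩⟩
  · intro x y
    apply Prod.ext
    · apply Subtype.ext
      show (g ((x : V) + y)).1 = (g x).1 + (g y).1
      rw [map_add]; rfl
    · apply Subtype.ext
      show (g ((x : V) + y)).2 = (g x).2 + (g y).2
      rw [map_add]; rfl
  · intro a x
    apply Prod.ext
    · apply Subtype.ext
      show (g (a • (x : V))).1 = a • (g x).1
      rw [map_smul]; rfl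
    · apply Subtype.ext
      show (g (a • (x : V))).2 = a • (g x).2
      rw [map_smul]; rfl
  · have : g.symm ((y.1 : V₁), (y.2 : V₂)) = g.symm (y.1, 0) + g.symm (0, y.2) := by
      rw [← map_add]; simp
    rw [this]
    exact Submodule.add_mem _ (h2 _ y.1.2) (h3 _ y.2.2)
  · intro x
    apply Subtype.ext
    show g.symm ((g x).1, (g x).2) = x
    simp
  · intro y
    apply Prod.ext
    · apply Subtype.ext
      show (g (g.symm (y.1, y.2))).1 = y.1
      rw [LinearEquiv.apply_symm_apply]
    · apply Subtype.ext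
      show (g (g.symm (y.1, y.2))).2 = y.2
      rw [LinearEquiv.apply_symm_apply]

/-- The span of a power. -/
theorem exists_spanPi (m : ℕ) (g : V ≃ₗ[K] (Fin m → V₁)) (S : AddSubgroup V)
    (S₁ : AddSubgroup V₁) (h : ∀ x, x ∈ S ↔ ∀ i, g x i ∈ S₁) :
    ∃ e : (Submodule.span K (S : Set V)) ≃ₗ[K] (Fin m → Submodule.span K (S₁ : Set V₁)),
      ∀ x i, ((e x i : Submodule.span K (S₁ : Set V₁)) : V₁) = g x i := by
  classical
  have h1 : ∀ x ∈ Submodule.span K (S : Set V), ∀ i, g x i ∈ Submodule.span K (S₁ : Set V₁) := by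
    intro x hx i
    induction hx using Submodule.span_induction with
    | mem x hx => exact Submodule.subset_span ((h x).mp hx i)
    | zero =>
      rw [map_zero]
      exact Submodule.zero_mem _
    | add x y _ _ hx hy =>
      rw [map_add]
      exact Submodule.add_mem _ hx hy
    | smul a x _ hx =>
      rw [map_smul]
      exact Submodule.smul_mem _ a hx
  have h2 : ∀ (i : Fin m), ∀ y ∈ Submodule.span K (S₁ : Set V₁),
      g.symm (Pi.single i y) ∈ Submodule.span K (S : Set V) := by
    intro i y hy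
    induction hy using Submodule.span_induction with
    | mem y hy =>
      apply Submodule.subset_span
      rw [SetLike.mem_coe, h, LinearEquiv.apply_symm_apply]
      intro j
      by_cases hij : j = i
      · subst hij
        rw [Pi.single_eq_same]
        exact hy
      · rw [Pi.single_eq_of_ne hij]
        exact S₁.zero_mem
    | zero =>
      rw [Pi.single_zero, map_zero]
      exact Submodule.zero_mem _
    | add x y _ _ hx hy =>
      rw [Pi.single_add, map_add]
      exact Submodule.add_mem _ hx hy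
    | smul a x _ hx =>
      rw [Pi.single_smul, map_smul]
      exact Submodule.smul_mem _ a hx
  refine ⟨{ toFun := fun x i => ⟨g x i, h1 x x.2 i⟩
            map_add' := ?_
            map_smul' := ?_
            invFun := fun y => ⟨g.symm fun i => (y i : V₁), ?_⟩
            left_inv := ?_
            right_inv := ?_ }, fun x i => rfl⟩
  · intro x y
    ext i
    show (g ((x : V) + y)) i = (g x) i + (g y) i
    rw [map_add]; rfl
  · intro a x
    ext i
    show (g (a • (x : V))) i = a • (g x) i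
    rw [map_smul]; rfl
  · have h3 : (fun i => (y i : V₁)) = ∑ i, Pi.single i (y i : V₁) :=
      (Finset.univ_sum_single _).symm
    rw [h3, map_sum]
    exact Submodule.sum_mem _ fun i _ => h2 i _ (y i).2
  · intro x
    apply Subtype.ext
    show g.symm (fun i => g x i) = x
    exact g.symm_apply_apply _
  · intro y
    ext i
    show g (g.symm fun i => (y i : V₁)) i = y i
    rw [LinearEquiv.apply_symm_apply]

end span

/-! ## Change of scalars -/

section amb

variable {K : Type} [Field K] {ι : K →+* ℂ}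

/-- A complex linear equivalence as a `K`-linear one. -/
noncomputable def ambProdEquiv {V V₁ V₂ : Type} [AddCommGroup V] [Module ℂ V] [AddCommGroup V₁]
    [Module ℂ V₁] [AddCommGroup V₂] [Module ℂ V₂] (f : V ≃ₗ[ℂ] (V₁ × V₂)) :
    Amb ι V ≃ₗ[K] (Amb ι V₁ × Amb ι V₂) where
  toFun x := f x
  map_add' x y := f.map_add x y
  map_smul' a x := f.map_smul (ι a) x
  invFun x := f.symm x
  left_inv x := f.symm_apply_apply x
  right_inv x := f.apply_symm_apply x

/-- A complex linear equivalence as a `K`-linear one. -/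
noncomputable def ambPiEquiv {V V₁ : Type} [AddCommGroup V] [Module ℂ V] [AddCommGroup V₁]
    [Module ℂ V₁] {m : ℕ} (f : V ≃ₗ[ℂ] (Fin m → V₁)) :
    Amb ι V ≃ₗ[K] (Fin m → Amb ι V₁) where
  toFun x := f x
  map_add' x y := f.map_add x y
  map_smul' a x := f.map_smul (ι a) x
  invFun x := f.symm x
  left_inv x := f.symm_apply_apply x
  right_inv x := f.apply_symm_apply x

end amb

namespace AmbData

variable {R K : Type} [CommRing R] [IsDedekindDomain R] [Field K] [Algebra R K]
  [IsFractionRing R K] {ι : K →+* ℂ}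

/-- Orthogonal sums. -/
theorem D_prod (A₁ A₂ B : AmbData R ι) (f : B.W ≃ₗ[ℂ] (A₁.W × A₂.W))
    (hL : ∀ x, x ∈ B.L ↔ (f x).1 ∈ A₁.L ∧ (f x).2 ∈ A₂.L)
    (hh : ∀ x y, B.H x y = A₁.H (f x).1 (f y).1 + A₂.H (f x).2 (f y).2) :
    B.toHerm.D = A₁.toHerm.D * A₂.toHerm.D ∧
      B.toHerm.rank = A₁.toHerm.rank + A₂.toHerm.rank := by
  obtain ⟨e, he⟩ := exists_spanProd (K := K) (ambProdEquiv (ι := ι) f) B.LA A₁.LA A₂.LA hL
  refine ⟨HermMod.D_prod B.toHerm A₁.toHerm A₂.toHerm e ?_ ?_,
    HermMod.rank_prod B.toHerm A₁.toHerm A₂.toHerm e⟩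
  · intro x
    show x.1 ∈ B.LA ↔ (e x).1.1 ∈ A₁.LA ∧ (e x).2.1 ∈ A₂.LA
    rw [(he x).1, (he x).2]
    exact hL x.1
  · intro x y
    show B.HA x.1 y.1 = A₁.HA (e x).1.1 (e y).1.1 + A₂.HA (e x).2.1 (e y).2.1
    rw [(he x).1, (he x).2, (he y).1, (he y).2]
    exact hh x.1 y.1

/-- Block anti-triangular powers. -/
theorem D_anti (A B : AmbData R ι) (m : ℕ) (ε : ℂˣ) (f : B.W ≃ₗ[ℂ] (Fin m → A.W))
    (hL : ∀ x, x ∈ B.L ↔ ∀ i, f x i ∈ A.L)
    (h0 : ∀ (i k : Fin m) x y, (i : ℕ) + k + 1 < m →
      B.H (f.symm (Pi.single i x)) (f.symm (Pi.single k y)) = 0)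
    (h1 : ∀ (i k : Fin m) x y, (i : ℕ) + k + 1 = m →
      B.H (f.symm (Pi.single i x)) (f.symm (Pi.single k y)) = ε * A.H x y) :
    B.toHerm.D = A.toHerm.D ^ m *
        HermMod.sg R K ι (((-1) ^ (m * (m - 1) / 2) * ε ^ m) ^ A.toHerm.rank) ∧
      B.toHerm.rank = m * A.toHerm.rank := by
  obtain ⟨e, he⟩ : ∃ e : B.Esub ≃ₗ[K] (Fin m → A.Esub),
      ∀ x i, ((e x i).1 : Amb ι A.W) = ambPiEquiv (ι := ι) f x.1 i :=
    exists_spanPi (K := K) m (ambPiEquiv (ι := ι) f) B.LA A.LA hL
  have hs : ∀ (i : Fin m) (x : A.Esub),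
      ((e.symm (Pi.single i x)).1 : Amb ι B.W) = (ambPiEquiv (ι := ι) f).symm (Pi.single i x.1) := by
    intro i x
    rw [LinearEquiv.eq_symm_apply]
    ext k
    rw [← he, LinearEquiv.apply_symm_apply]
    by_cases hik : k = i
    · subst hik
      rw [Pi.single_eq_same, Pi.single_eq_same]
    · rw [Pi.single_eq_of_ne hik, Pi.single_eq_of_ne hik]
      rfl
  refine ⟨HermMod.D_anti A.toHerm B.toHerm m ε e ?_ ?_ ?_,
    HermMod.rank_anti A.toHerm B.toHerm m e⟩
  · intro (x : B.Esub)
    show x.1 ∈ B.LA ↔ ∀ i, (e x i).1 ∈ A.LA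
    simp only [he]
    exact hL x.1
  · intro i k (x : A.Esub) (y : A.Esub) hik
    show B.HA (e.symm (Pi.single i x)).1 (e.symm (Pi.single k y)).1 = 0
    rw [hs, hs]
    exact h0 i k x.1 y.1 hik
  · intro i k (x : A.Esub) (y : A.Esub) hik
    show B.HA (e.symm (Pi.single i x)).1 (e.symm (Pi.single k y)).1 = ε * A.HA x.1 y.1
    rw [hs, hs]
    exact h1 i k x.1 y.1 hik

/-- The projective line. -/
theorem chi_P1 (Z P : AmbData R ι) (f : P.W ≃ₗ[ℂ] (Fin 2 → Z.W))
    (hL : ∀ x, x ∈ P.L ↔ ∀ i, f x i ∈ Z.L)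
    (h0 : ∀ (i k : Fin 2) x y, (i : ℕ) + k + 1 < 2 →
      P.H (f.symm (Pi.single i x)) (f.symm (Pi.single k y)) = 0)
    (h1 : ∀ (i k : Fin 2) x y, (i : ℕ) + k + 1 = 2 →
      P.H (f.symm (Pi.single i x)) (f.symm (Pi.single k y)) = Z.H x y) :
    P.toHerm.chi - Z.toHerm.chi = HermMod.lef R K ι Z.toHerm.chi := by
  obtain ⟨hD, hr⟩ := D_anti Z P 2 1 f hL h0 (fun i k x y h => by
    rw [h1 i k x y h, Units.val_one, one_mul])
  exact HermMod.chi_P1 _ _ hD hr

/-- The hermitian lattice of the exceptional part of a blow-up. -/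
noncomputable def exc (W Z B : AmbData R ι) (m : ℕ) (f : B.W ≃ₗ[ℂ] (W.W × (Fin m → Z.W)))
    (hL : ∀ x, x ∈ B.L ↔ (f x).1 ∈ W.L ∧ ∀ i, (f x).2 i ∈ Z.L)
    (h21 : ∀ x y, B.H (f.symm (0, y)) (f.symm (x, 0)) = 0) : AmbData R ι where
  W := Fin m → Z.W
  L := AddSubgroup.pi Set.univ fun _ => Z.L
  fg := by
    classical
    obtain ⟨S, hSL, hS⟩ := B.fg
    let φ : B.W →+ (Fin m → Z.W) :=
      (AddMonoidHom.snd W.W (Fin m → Z.W)).comp f.toAddEquiv.toAddMonoidHom
    have hφ : ∀ x, φ x = (f x).2 := fun _ => rfl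
    refine ⟨S.image φ, ?_, ?_⟩
    · intro s hs
      obtain ⟨x, hx, rfl⟩ := Finset.mem_image.mp hs
      intro i _
      exact ((hL x).mp (hSL x hx)).2 i
    · intro x hx
      have h1 : f.symm (0, x) ∈ B.L := by
        rw [hL, LinearEquiv.apply_symm_apply]
        exact ⟨W.L.zero_mem, fun i => hx i (Set.mem_univ i)⟩
      have h2 : φ (f.symm (0, x)) = x := by
        rw [hφ, LinearEquiv.apply_symm_apply]
      rw [← h2]
      have h3 : ∀ y : B.W, y ∈ AddSubgroup.closure
          {y | ∃ (r : R), ∃ s ∈ S, y = ι (algebraMap R K r) • s} →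
          φ y ∈ AddSubgroup.closure
            {y | ∃ (r : R), ∃ s ∈ S.image φ, y = ι (algebraMap R K r) • s} := by
        intro y hy
        induction hy using AddSubgroup.closure_induction with
        | mem y hy =>
          obtain ⟨r, s, hs, rfl⟩ := hy
          refine AddSubgroup.subset_closure ⟨r, φ s, Finset.mem_image_of_mem φ hs, ?_⟩
          rw [hφ, hφ, map_smul]
          rfl
        | zero => rw [map_zero]; exact AddSubgroup.zero_mem _
        | add y z _ _ hy hz => rw [map_add]; exact AddSubgroup.add_mem _ hy hz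
        | neg y _ hy => rw [map_neg]; exact AddSubgroup.neg_mem _ hy
      exact h3 _ (hS _ h1)
  smul_mem := by
    intro e x hx i hi
    exact Z.smul_mem e _ (hx i hi)
  H := fun x y => B.H (f.symm (0, x)) (f.symm (0, y))
  add_left := by
    intro x y z
    have : f.symm ((0 : W.W), x + y) = f.symm (0, x) + f.symm (0, y) := by
      rw [← map_add]; simp
    rw [this, B.add_left]
  add_right := by
    intro x y z
    have : f.symm ((0 : W.W), y + z) = f.symm (0, y) + f.symm (0, z) := by
      rw [← map_add]; simp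
    rw [this, B.add_right]
  smul_left := by
    intro a x y
    have : f.symm ((0 : W.W), a • x) = a • f.symm (0, x) := by
      rw [← map_smul]; simp
    rw [this, B.smul_left]
  smul_right := by
    intro a x y
    have : f.symm ((0 : W.W), a • y) = a • f.symm (0, y) := by
      rw [← map_smul]; simp
    rw [this, B.smul_right]
  range := by
    intro x hx y hy
    apply B.range
    · rw [hL, LinearEquiv.apply_symm_apply]
      exact ⟨W.L.zero_mem, fun i => hx i (Set.mem_univ i)⟩
    · rw [hL, LinearEquiv.apply_symm_apply]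
      exact ⟨W.L.zero_mem, fun i => hy i (Set.mem_univ i)⟩
  nondeg := by
    intro x hx hx0
    have h1 : f.symm (0, x) ∈ Submodule.span ℂ (B.L : Set B.W) := by
      clear hx0
      induction hx using Submodule.span_induction with
      | mem y hy =>
        apply Submodule.subset_span
        show f.symm (0, y) ∈ B.L
        rw [hL, LinearEquiv.apply_symm_apply]
        exact ⟨W.L.zero_mem, fun i => hy i (Set.mem_univ i)⟩
      | zero =>
        have : f.symm ((0 : W.W), (0 : Fin m → Z.W)) = 0 := map_zero f.symm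
        rw [this]
        exact Submodule.zero_mem _
      | add y z _ _ hy hz =>
        have : f.symm ((0 : W.W), y + z) = f.symm (0, y) + f.symm (0, z) := by
          rw [← map_add]; simp
        rw [this]
        exact Submodule.add_mem _ hy hz
      | smul a y _ hy =>
        have : f.symm ((0 : W.W), a • y) = a • f.symm (0, y) := by
          rw [← map_smul]; simp
        rw [this]
        exact Submodule.smul_mem _ a hy
    have h2 : f.symm (0, x) ≠ 0 := by
      intro h
      apply hx0
      have h3 := congrArg f h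
      rw [LinearEquiv.apply_symm_apply, map_zero] at h3
      exact congrArg Prod.snd h3
    obtain ⟨y, hy, hne⟩ := B.nondeg _ h1 h2
    refine ⟨(f y).2, fun i _ => ((hL y).mp hy).2 i, ?_⟩
    have h4 : y = f.symm ((f y).1, 0) + f.symm (0, (f y).2) := by
      rw [← map_add]; simp
    rw [h4, B.add_right, h21, zero_add] at hne
    exact hne

/-- **Bittner's relation.** -/
theorem chi_blow (W Z E B : AmbData R ι) (m : ℕ) (fE : E.W ≃ₗ[ℂ] (Fin (m + 1) → Z.W))
    (hLE : ∀ x, x ∈ E.L ↔ ∀ i, fE x i ∈ Z.L)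
    (h0E : ∀ (i k : Fin (m + 1)) x y, (i : ℕ) + k + 1 < m + 1 →
      E.H (fE.symm (Pi.single i x)) (fE.symm (Pi.single k y)) = 0)
    (h1E : ∀ (i k : Fin (m + 1)) x y, (i : ℕ) + k + 1 = m + 1 →
      E.H (fE.symm (Pi.single i x)) (fE.symm (Pi.single k y)) = Z.H x y)
    (f : B.W ≃ₗ[ℂ] (W.W × (Fin m → Z.W)))
    (hL : ∀ x, x ∈ B.L ↔ (f x).1 ∈ W.L ∧ ∀ i, (f x).2 i ∈ Z.L)
    (h11 : ∀ x y, B.H (f.symm (x, 0)) (f.symm (y, 0)) = W.H x y)
    (h12 : ∀ x y, B.H (f.symm (x, 0)) (f.symm (0, y)) = 0)
    (h21 : ∀ x y, B.H (f.symm (0, y)) (f.symm (x, 0)) = 0)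
    (h0 : ∀ (i k : Fin m) x y, (i : ℕ) + k + 1 < m →
      B.H (f.symm (0, Pi.single i x)) (f.symm (0, Pi.single k y)) = 0)
    (h1 : ∀ (i k : Fin m) x y, (i : ℕ) + k + 1 = m →
      B.H (f.symm (0, Pi.single i x)) (f.symm (0, Pi.single k y)) = - Z.H x y) :
    B.toHerm.chi + Z.toHerm.chi = W.toHerm.chi + E.toHerm.chi := by
  obtain ⟨hED, hEr⟩ := D_anti Z E (m + 1) 1 fE hLE h0E (fun i k x y h => by
    rw [h1E i k x y h, Units.val_one, one_mul])
  let X := exc W Z B m f hL h21
  obtain ⟨hKD, hKr⟩ := D_anti Z X m (-1) (LinearEquiv.refl ℂ _)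
    (fun x => by
      constructor
      · intro hx i
        exact hx i (Set.mem_univ i)
      · intro hx i _
        exact hx i)
    (fun i k x y h => h0 i k x y h)
    (fun i k x y h => by
      refine (h1 i k x y h).trans ?_
      rw [Units.val_neg, Units.val_one, neg_one_mul])
  obtain ⟨hBD, hBr⟩ := D_prod W X B f
    (fun x => by
      rw [hL]
      refine and_congr Iff.rfl ?_
      constructor
      · intro hx i _
        exact hx i
      · intro hx i
        exact hx i (Set.mem_univ i))
    (fun x y => by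
      have hx : x = f.symm ((f x).1, 0) + f.symm (0, (f x).2) := by
        rw [← map_add]; simp
      have hy : y = f.symm ((f y).1, 0) + f.symm (0, (f y).2) := by
        rw [← map_add]; simp
      conv_lhs => rw [hx, hy]
      rw [B.add_left, B.add_right, B.add_right, h11, h12, h21, add_zero, zero_add]
      rfl)
  refine HermMod.chi_blow _ _ _ _ X.toHerm (m + 1) (by omega) hED hEr ?_ ?_ hBD hBr
  · exact hKD
  · exact hKr

end AmbData

end H91.VG
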